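import Pool.Agent.R80.WF.Asm

/-!
# Irreducibility of Weil 2-polynomials congruent to `(X² - 1)^g` modulo 3
-/

set_option autoImplicit false

namespace Pool.Agent.K3h7.WF

open Polynomial

theorem normSq_eval {h : ℤ[X]} (hm : h.Monic) (a : ℤ) :
    Complex.normSq ((h.eval a : ℤ) : ℂ) =
      ((h.map (Int.castRingHom ℂ)).roots.map (fun x => Complex.normSq ((a : ℂ) - x))).prod := by
  have hs : (h.map (Int.castRingHom ℂ)).Splits := IsAlgClosed.splits _
  have h1 := hs.eq_prod_roots_of_monic (hm.map _)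
  have h2 : ((h.eval a : ℤ) : ℂ) = (h.map (Int.castRingHom ℂ)).eval (a : ℂ) := by
    rw [eval_intCast_map]
    rfl
  rw [h2]
  conv_lhs => rw [h1]
  rw [eval_multiset_prod, Multiset.map_map, map_multiset_prod, Multiset.map_map]
  simp

theorem eval_two_sq {h : ℤ[X]} (hm : h.Monic)
    (hr : ∀ x : ℂ, aeval x h = 0 → Complex.normSq x = 2) :
    (h.eval 2) ^ 2 = 2 ^ h.natDegree * (h.eval 1) ^ 2 := by
  have h2 := normSq_eval hm 2
  have h1 := normSq_eval hm 1
  have hroot : ∀ x ∈ (h.map (Int.castRingHom ℂ)).roots, Complex.normSq (((2 : ℤ) : ℂ) - x) =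
      2 * Complex.normSq (((1 : ℤ) : ℂ) - x) := by
    intro x hx
    have h3 : aeval x h = 0 := by
      have := isRoot_of_mem_roots hx
      rw [IsRoot.def, eval_map] at this
      rw [aeval_def]
      exact this
    have h4 := hr x h3
    rw [Complex.normSq_apply] at h4 ⊢
    rw [Complex.normSq_apply]
    simp only [Complex.sub_re, Complex.sub_im, Complex.intCast_re, Complex.intCast_im]
    push_cast
    nlinarith
  rw [Multiset.map_congr rfl hroot, Multiset.prod_map_mul, Multiset.map_const',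
    Multiset.prod_replicate] at h2
  rw [← h1] at h2
  have hs : (h.map (Int.castRingHom ℂ)).Splits := IsAlgClosed.splits _
  have hcard : (h.map (Int.castRingHom ℂ)).roots.card = h.natDegree := by
    rw [← hs.natDegree_eq_card_roots, hm.natDegree_map]
  rw [hcard, Complex.normSq_intCast, Complex.normSq_intCast] at h2
  have : ((h.eval 2 * h.eval 2 : ℤ) : ℝ) = ((2 ^ h.natDegree * (h.eval 1 * h.eval 1) : ℤ) : ℝ) := by
    push_cast
    exact h2
  have h5 : h.eval 2 * h.eval 2 = 2 ^ h.natDegree * (h.eval 1 * h.eval 1) := by exact_mod_cast this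
  rw [sq, sq]
  exact h5

theorem two_eq : ((2 : ℤ) : ZMod 3) = -1 := by decide

theorem three_dvd_iff (m : ℤ) : ((m : ℤ) : ZMod 3) = 0 ↔ (3 : ℤ) ∣ m := by
  have := ZMod.intCast_zmod_eq_zero_iff_dvd m 3
  exact_mod_cast this

theorem three_dvd_eval_one {P h : ℤ[X]} {g : ℕ}
    (hmod : P.map (Int.castRingHom (ZMod 3)) = (X ^ 2 - 1) ^ g)
    (hr : ∀ x : ℂ, aeval x P = 0 → Complex.normSq x = 2) (hm : h.Monic) (hd : 0 < h.natDegree)
    (hP : h ∣ P) : (3 : ℤ) ∣ h.eval 1 := by
  have : Fact (Nat.Prime 3) := ⟨Nat.prime_three⟩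
  set hb := h.map (Int.castRingHom (ZMod 3)) with hhb
  have hbd : 0 < hb.natDegree := by
    rw [hhb, hm.natDegree_map]
    exact hd
  obtain ⟨π, hπ, hπd⟩ := exists_irreducible_of_natDegree_pos hbd
  have hdvd : π ∣ (X ^ 2 - 1 : (ZMod 3)[X]) ^ g := by
    rw [← hmod]
    exact hπd.trans (Polynomial.map_dvd _ hP)
  have hdvd2 : π ∣ (X - C 1) * (X - C (-1) : (ZMod 3)[X]) := by
    have h1 := hπ.prime.dvd_of_dvd_pow hdvd
    have h2 : (X ^ 2 - 1 : (ZMod 3)[X]) = (X - C 1) * (X - C (-1)) := by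
      rw [C_neg, C_1]
      ring
    rwa [h2] at h1
  have hor : (3 : ℤ) ∣ h.eval 1 ∨ (3 : ℤ) ∣ h.eval 2 := by
    rcases hπ.prime.dvd_or_dvd hdvd2 with h1 | h1
    · left
      have h2 : (X - C 1 : (ZMod 3)[X]) ∣ hb :=
        (hπ.dvd_symm (irreducible_X_sub_C 1) h1).trans hπd
      rw [dvd_iff_isRoot, IsRoot.def] at h2
      have h3 := eval_intCast_map (Int.castRingHom (ZMod 3)) h 1
      rw [Int.cast_one, ← hhb, h2] at h3
      rw [← three_dvd_iff]
      simpa using h3.symm
    · right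
      have h2 : (X - C (-1) : (ZMod 3)[X]) ∣ hb :=
        (hπ.dvd_symm (irreducible_X_sub_C (-1)) h1).trans hπd
      rw [dvd_iff_isRoot, IsRoot.def] at h2
      have h3 := eval_intCast_map (Int.castRingHom (ZMod 3)) h 2
      rw [two_eq, ← hhb, h2] at h3
      rw [← three_dvd_iff]
      simpa using h3.symm
  rcases hor with h1 | h1
  · exact h1
  · have hrh : ∀ x : ℂ, aeval x h = 0 → Complex.normSq x = 2 := by
      intro x hx
      apply hr
      obtain ⟨k, rfl⟩ := hP
      rw [map_mul, hx, zero_mul]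
    have h2 := eval_two_sq hm hrh
    have h3 : (3 : ℤ) ∣ 2 ^ h.natDegree * (h.eval 1) ^ 2 := by
      rw [← h2]
      exact Dvd.dvd.pow h1 (by norm_num)
    rcases Int.prime_three.dvd_or_dvd h3 with h4 | h4
    · have := Int.prime_three.dvd_of_dvd_pow h4
      omega
    · exact Int.prime_three.dvd_of_dvd_pow h4

theorem irreducible_of {P : ℤ[X]} {g : ℕ} (hm : P.Monic) (hd : 0 < P.natDegree)
    (hmod : P.map (Int.castRingHom (ZMod 3)) = (X ^ 2 - 1) ^ g)
    (hr : ∀ x : ℂ, aeval x P = 0 → Complex.normSq x = 2) (h9 : ¬ (9 : ℤ) ∣ P.eval 1) :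
    Irreducible (P.map (Int.castRingHom ℚ)) := by
  have h1 : Irreducible P := by
    rw [irreducible_of_monic hm (by rintro rfl; simp at hd)]
    intro h k hh hk hhk
    by_contra hcon
    push Not at hcon
    obtain ⟨hh1, hk1⟩ := hcon
    have hhd : 0 < h.natDegree := by
      rcases Nat.eq_zero_or_pos h.natDegree with h0 | h0
      · exact absurd (hh.natDegree_eq_zero.1 h0) hh1
      · exact h0
    have hkd : 0 < k.natDegree := by
      rcases Nat.eq_zero_or_pos k.natDegree with h0 | h0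
      · exact absurd (hk.natDegree_eq_zero.1 h0) hk1
      · exact h0
    have e1 := three_dvd_eval_one hmod hr hh hhd ⟨k, hhk.symm⟩
    have e2 := three_dvd_eval_one hmod hr hk hkd ⟨h, by rw [mul_comm]; exact hhk.symm⟩
    apply h9
    rw [← hhk, eval_mul]
    exact mul_dvd_mul e1 e2
  exact (hm.irreducible_iff_irreducible_map_fraction_map (K := ℚ)).1 h1

end Pool.Agent.K3h7.WF
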