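import Mathlib

/-!
# Roots of unity in a number field from the norm of one element
-/

set_option autoImplicit false

namespace Pool.Agent.K3h7.WF

open Polynomial IntermediateField

theorem norm_sub_gen {K : Type*} [Field K] [Algebra ℚ K] (pb : PowerBasis ℚ K) (a : ℚ) :
    Algebra.norm ℚ (algebraMap ℚ K a - pb.gen) = (minpoly ℚ pb.gen).eval a := by
  rw [Algebra.norm_eq_matrix_det pb.basis, map_sub, ← charpoly_leftMulMatrix pb,
    Matrix.eval_charpoly]
  congr 2
  rw [AlgHom.commutes]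
  rfl

theorem int_of_isIntegral {q : ℚ} (h : IsIntegral ℤ q) : ∃ m : ℤ, (m : ℚ) = q := by
  obtain ⟨m, hm⟩ := IsIntegrallyClosed.isIntegral_iff.1 h
  exact ⟨m, by simpa using hm⟩

theorem int_of_sq {q : ℚ} {m : ℤ} (h : q ^ 2 = m) : ∃ n : ℤ, (n : ℚ) = q := by
  apply int_of_isIntegral
  apply IsIntegral.of_pow (two_pos)
  rw [h]
  exact isIntegral_algebraMap (R := ℤ) (A := ℚ) (x := m)

theorem no6 : ∀ c v : ZMod 9, c ^ 2 + 3 * v ^ 2 ≠ 4 * 6 := by decide

section

attribute [-instance] DivisionRing.toRatAlgebra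

/-- norms from a field containing a primitive cube root of unity -/
theorem norm_form {K : Type*} [Field K] [Algebra ℚ K] [FiniteDimensional ℚ K] {w : K} (hw : w ^ 2 + w + 1 = 0)
    {α : K} (hα : IsIntegral ℤ α) {N : ℤ} (hN : Algebra.norm ℚ α = N) :
    ∃ c v : ℤ, 4 * N = c ^ 2 + 3 * v ^ 2 := by
  have hwi : IsIntegral ℚ w := Algebra.IsIntegral.isIntegral w
  set E := ℚ⟮w⟯ with hE
  set pb := adjoin.powerBasis hwi with hpb
  have hgen : pb.gen = AdjoinSimple.gen ℚ w := adjoin.powerBasis_gen hwi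
  have hmin : minpoly ℚ w = X ^ 2 + X + 1 := by
    have hm : (X ^ 2 + X + 1 : ℚ[X]).Monic := by monicity!
    have hdeg : (X ^ 2 + X + 1 : ℚ[X]).natDegree = 2 := by compute_degree!
    refine (minpoly.eq_of_irreducible_of_monic ?_ (by simp [hw]) hm).symm
    rw [hm.irreducible_iff_roots_eq_zero_of_degree_le_three (by omega) (by omega)]
    rw [Multiset.eq_zero_iff_forall_notMem]
    intro r hr
    have h1 := isRoot_of_mem_roots hr
    rw [IsRoot.def] at h1
    simp only [eval_add, eval_pow, eval_X, eval_one] at h1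
    nlinarith [sq_nonneg (r + 1 / 2)]
  have hming : minpoly ℚ pb.gen = X ^ 2 + X + 1 := by
    rw [hgen, minpoly_gen, hmin]
  have hdim : pb.dim = 2 := by
    rw [← pb.natDegree_minpoly, hming]
    compute_degree!
  have hfin : Module.finrank ℚ E = 2 := by rw [pb.finrank, hdim]
  -- the norm of `u + v w`
  have hnorm : ∀ u v : ℚ, Algebra.norm ℚ (algebraMap ℚ E u + algebraMap ℚ E v * pb.gen) =
      u ^ 2 - u * v + v ^ 2 := by
    intro u v
    by_cases hv : v = 0
    · subst hv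
      rw [map_zero, zero_mul, add_zero, Algebra.norm_algebraMap, hfin]
      ring
    · have h1 : algebraMap ℚ E u + algebraMap ℚ E v * pb.gen =
          algebraMap ℚ E (-v) * (algebraMap ℚ E (-u / v) - pb.gen) := by
        rw [map_neg, map_div₀, map_neg]
        have : algebraMap ℚ E v ≠ 0 := by
          rw [Ne, map_eq_zero]
          exact hv
        field_simp
        ring
      rw [h1, map_mul, norm_sub_gen, hming, Algebra.norm_algebraMap, hfin]
      simp only [eval_add, eval_pow, eval_X, eval_one]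
      field_simp
      ring
  set β : E := Algebra.norm E α with hβ
  have hβi : IsIntegral ℤ β := Algebra.isIntegral_norm E hα
  have hβN : Algebra.norm ℚ β = N := by
    rw [hβ, Algebra.norm_norm, hN]
  obtain ⟨q, hq1, hq2⟩ := pb.exists_eq_aeval β
  rw [hdim] at hq1
  obtain ⟨v, u, rfl⟩ := exists_eq_X_add_C_of_natDegree_le_one (by omega : q.natDegree ≤ 1)
  have hβuv : β = algebraMap ℚ E u + algebraMap ℚ E v * pb.gen := by
    rw [hq2]
    simp only [map_add, map_mul, aeval_C, aeval_X]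
    ring
  have h1 : u ^ 2 - u * v + v ^ 2 = N := by rw [← hnorm, ← hβuv, hβN]
  have h2 : IsIntegral ℤ (1 + β) := isIntegral_one.add hβi
  obtain ⟨m, hm⟩ := int_of_isIntegral (Algebra.isIntegral_norm ℚ h2)
  have h3 : (1 + β : E) = algebraMap ℚ E (1 + u) + algebraMap ℚ E v * pb.gen := by
    rw [hβuv, map_add, map_one]
    ring
  rw [h3, hnorm] at hm
  set c : ℤ := m - N - 1 with hc
  have hcu : (c : ℚ) = 2 * u - v := by
    rw [hc]
    push_cast
    rw [hm, ← h1]
    ring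
  have h4 : (3 * v) ^ 2 = ((3 * (4 * N - c ^ 2) : ℤ) : ℚ) := by
    push_cast
    rw [hcu, ← h1]
    ring
  obtain ⟨t, ht⟩ := int_of_sq h4
  have h5 : t ^ 2 = 3 * (4 * N - c ^ 2) := by
    have : ((t ^ 2 : ℤ) : ℚ) = ((3 * (4 * N - c ^ 2) : ℤ) : ℚ) := by
      rw [← h4, ← ht]
      push_cast
      ring
    exact_mod_cast this
  have h6 : (3 : ℤ) ∣ t := by
    apply Int.prime_three.dvd_of_dvd_pow (n := 2)
    rw [h5]
    exact dvd_mul_right _ _
  obtain ⟨s, rfl⟩ := h6
  refine ⟨c, s, ?_⟩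
  have : 3 * (3 * s ^ 2) = 3 * (4 * N - c ^ 2) := by rw [← h5]; ring
  linarith

end

/-- a field with an integer of norm 6 modulo 9 contains no primitive cube root of unity -/
theorem no_cube_root {K : Type*} [Field K] [Algebra ℚ K] [FiniteDimensional ℚ K] {w : K} (hw : w ^ 2 + w + 1 = 0)
    {α : K} (hα : IsIntegral ℤ α) {N : ℤ} (hN : Algebra.norm ℚ α = N) (h6 : N % 9 = 6) : False := by
  obtain ⟨c, v, h⟩ := norm_form hw hα hN
  have h1 : ((4 * N : ℤ) : ZMod 9) = ((c ^ 2 + 3 * v ^ 2 : ℤ) : ZMod 9) := by rw [h]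
  have h2 : ((N : ℤ) : ZMod 9) = 6 := by
    have : ((N : ℤ) : ZMod 9) = ((6 : ℤ) : ZMod 9) := by
      rw [ZMod.intCast_eq_intCast_iff]
      exact h6
    rw [this]
    rfl
  push_cast at h1
  rw [h2] at h1
  exact no6 _ _ h1.symm

open NumberField in
/-- a prime of degree one -/
theorem exists_prime {K : Type*} [Field K] [NumberField K] {α : 𝓞 K} {N : ℤ}
    (hN : Algebra.norm ℤ α = N) {q : ℕ} (hq : q.Prime) (h1 : (q : ℤ) ∣ N)
    (h2 : ¬ ((q : ℤ) ^ 2) ∣ N) :
    ∃ I : Ideal (𝓞 K), I.IsMaximal ∧ I.absNorm = q ∧ ((q : ℕ) : 𝓞 K) ∈ I := by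
  have h3 : (Ideal.span {α}).absNorm = N.natAbs := by
    rw [Ideal.absNorm_span_singleton, hN]
  have h4 : q ∣ (Ideal.span {α}).absNorm := by
    rw [h3]
    exact Int.natCast_dvd.1 h1
  obtain ⟨I, hI1, hI2, hI3⟩ := Ideal.exists_isMaximal_dvd_of_dvd_absNorm' hq _ h4
  obtain ⟨p, n, hn, hp1, hp2, hp3⟩ := Ideal.exists_prime_and_absNorm_eq_pow I
  have h5 : (p : ℤ) ∈ I.under ℤ := by
    rw [Ideal.mem_comap]
    simpa using hp1
  rw [hI2, Ideal.mem_span_singleton] at h5
  have h6 : q = p := by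
    rw [Int.natCast_dvd_natCast] at h5
    exact (Nat.prime_dvd_prime_iff_eq hq hp2).1 h5
  subst h6
  have h7 : I.absNorm ∣ N.natAbs := by
    rw [← h3]
    exact Ideal.absNorm_dvd_absNorm_of_le (Ideal.le_of_dvd hI3)
  have h8 : n = 1 := by
    by_contra hne
    apply h2
    have : q ^ 2 ∣ N.natAbs := by
      refine (pow_dvd_pow q (by omega : 2 ≤ n)).trans ?_
      rw [← hp3]
      exact h7
    have h9 := Int.natCast_dvd.2 this
    push_cast at h9
    exact h9
  refine ⟨I, hI1, by rw [hp3, h8, pow_one], hp1⟩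

open NumberField in
theorem pow_sub_one_mem {K : Type*} [Field K] [NumberField K] {I : Ideal (𝓞 K)}
    (hI : I.IsMaximal) {q : ℕ} (hq : q.Prime) (hIq : I.absNorm = q) {η : 𝓞 K} {n : ℕ}
    (hn : 1 ≤ n) (hη : η ^ n = 1) : η ^ (q - 1) - 1 ∈ I := by
  have hne : η ∉ I := by
    intro h
    have h1 : (1 : 𝓞 K) ∈ I := by
      rw [← hη]
      exact Ideal.pow_mem_of_mem I h n (by omega)
    exact hI.ne_top ((Ideal.eq_top_iff_one I).2 h1)
  let _ := Ideal.Quotient.field I
  have hcard : Nat.card (𝓞 K ⧸ I) = q := hIq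
  have : Finite (𝓞 K ⧸ I) := by
    apply Nat.finite_of_card_ne_zero
    rw [hcard]
    exact hq.ne_zero
  let _ := Fintype.ofFinite (𝓞 K ⧸ I)
  have h2 : (Ideal.Quotient.mk I η) ≠ 0 := by
    rw [Ne, Ideal.Quotient.eq_zero_iff_mem]
    exact hne
  have h3 := FiniteField.pow_card_sub_one_eq_one _ h2
  rw [← Nat.card_eq_fintype_card, hcard] at h3
  rw [← Ideal.Quotient.eq_zero_iff_mem, map_sub, map_pow, map_one, h3, sub_self]

open NumberField in
/-- the order of a root of unity congruent to 1 -/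
theorem prime_order {K : Type*} [Field K] [NumberField K] {I : Ideal (𝓞 K)}
    (hI : I.IsMaximal) {q : ℕ} (hq : q.Prime) (hIq : ((q : ℕ) : 𝓞 K) ∈ I) {θ : 𝓞 K} {n : ℕ}
    (hn : 1 ≤ n) (hθ : θ ^ n = 1) (h1 : θ - 1 ∈ I) (hne : θ ≠ 1) :
    ∃ k, (θ ^ k) ^ q = 1 ∧ θ ^ k ≠ 1 := by
  have ho : 0 < orderOf θ := orderOf_pos_iff.2 (isOfFinOrder_iff_pow_eq_one.2 ⟨n, hn, hθ⟩)
  have ho1 : orderOf θ ≠ 1 := by
    rw [Ne, orderOf_eq_one_iff]
    exact hne
  obtain ⟨l, hl, hlo⟩ := Nat.exists_prime_and_dvd ho1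
  obtain ⟨k, hk⟩ := hlo
  have hk0 : 0 < k := by
    rcases Nat.eq_zero_or_pos k with h | h
    · rw [h, mul_zero] at hk
      omega
    · exact h
  have hτ : (θ ^ k) ^ l = 1 := by
    rw [← pow_mul, mul_comm, ← hk, pow_orderOf_eq_one]
  have hτ1 : θ ^ k ≠ 1 := by
    intro h
    have := Nat.le_of_dvd hk0 (orderOf_dvd_of_pow_eq_one h)
    have h2 := hl.two_le
    rw [hk] at this
    nlinarith
  have hτI : θ ^ k - 1 ∈ I := by
    have h3 : θ - 1 ∣ θ ^ k - 1 := by
      have := sub_dvd_pow_sub_pow θ 1 k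
      rwa [one_pow] at this
    exact I.mem_of_dvd h3 h1
  have hgeom : ∑ i ∈ Finset.range l, (θ ^ k) ^ i = 0 := by
    have h4 := geom_sum_mul (θ ^ k) l
    rw [hτ, sub_self] at h4
    exact (mul_eq_zero.1 h4).resolve_right (sub_ne_zero.2 hτ1)
  have hlI : ((l : ℕ) : 𝓞 K) ∈ I := by
    have h5 : ∑ i ∈ Finset.range l, (θ ^ k) ^ i - (l : 𝓞 K) ∈ I := by
      have : ∑ i ∈ Finset.range l, (θ ^ k) ^ i - (l : 𝓞 K) =
          ∑ i ∈ Finset.range l, ((θ ^ k) ^ i - 1) := by
        rw [Finset.sum_sub_distrib]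
        simp
      rw [this]
      apply I.sum_mem
      intro i _
      have h3 : θ ^ k - 1 ∣ (θ ^ k) ^ i - 1 := by
        have := sub_dvd_pow_sub_pow (θ ^ k) 1 i
        rwa [one_pow] at this
      exact I.mem_of_dvd h3 hτI
    rw [hgeom, zero_sub] at h5
    simpa using h5
  have hlq : l = q := by
    by_contra hcon
    have hco : Nat.Coprime l q := (Nat.coprime_primes hl hq).2 hcon
    have h6 : IsCoprime (l : ℤ) (q : ℤ) := Nat.isCoprime_iff_coprime.2 hco
    obtain ⟨a, b, hab⟩ := h6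
    apply hI.ne_top
    rw [Ideal.eq_top_iff_one]
    have h7 : (1 : 𝓞 K) = (a : 𝓞 K) * (l : 𝓞 K) + (b : 𝓞 K) * (q : 𝓞 K) := by
      have := congrArg (fun z : ℤ => (z : 𝓞 K)) hab
      push_cast at this
      exact this.symm
    rw [h7]
    exact I.add_mem (I.mul_mem_left _ hlI) (I.mul_mem_left _ hIq)
  subst hlq
  exact ⟨k, hτ, hτ1⟩

open NumberField in
/-- The roots of unity in a number field with an integer of norm congruent to 6 modulo 9. -/
theorem mu_two {K : Type*} [Field K] [NumberField K] {α : 𝓞 K} {N : ℤ}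
    (hN : Algebra.norm ℤ α = N) (h6 : N % 9 = 6) {z : K} {n : ℕ} (hn : 1 ≤ n) (hz : z ^ n = 1) :
    z ^ 2 = 1 := by
  obtain ⟨I, hI1, hI2, hI3⟩ := exists_prime hN Nat.prime_three (by omega) (by omega)
  have hzi : IsIntegral ℤ z := by
    apply IsIntegral.of_pow (by omega : 0 < n)
    rw [hz]
    exact isIntegral_one
  set η : 𝓞 K := ⟨z, hzi⟩ with hη
  have hηz : algebraMap (𝓞 K) K η = z := rfl
  have hinj : Function.Injective (algebraMap (𝓞 K) K) := FaithfulSMul.algebraMap_injective _ _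
  have hηn : η ^ n = 1 := by
    apply hinj
    rw [map_pow, map_one, hηz, hz]
  have h1 : η ^ 2 - 1 ∈ I := pow_sub_one_mem hI1 Nat.prime_three hI2 hn hηn
  have hθn : (η ^ 2) ^ n = 1 := by
    rw [← pow_mul, mul_comm, pow_mul, hηn, one_pow]
  have h2 : η ^ 2 = 1 := by
    by_contra hne
    obtain ⟨k, hk1, hk2⟩ := prime_order hI1 Nat.prime_three hI3 hn hθn h1 hne
    set w : K := algebraMap (𝓞 K) K ((η ^ 2) ^ k) with hw
    have hw3 : w ^ 3 = 1 := by
      rw [hw, ← map_pow, hk1, map_one]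
    have hw1 : w ≠ 1 := by
      intro h
      apply hk2
      apply hinj
      rw [map_one]
      exact h
    have hww : w ^ 2 + w + 1 = 0 := by
      have : (w - 1) * (w ^ 2 + w + 1) = 0 := by linear_combination hw3
      exact (mul_eq_zero.1 this).resolve_left (sub_ne_zero.2 hw1)
    have hNQ : Algebra.norm ℚ (algebraMap (𝓞 K) K α) = (N : ℚ) := by
      rw [← hN, ← Algebra.coe_norm_int]
    exact no_cube_root hww (RingOfIntegers.isIntegral_coe α) hNQ h6
  have h3 := congrArg (algebraMap (𝓞 K) K) h2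
  rw [map_pow, map_one, hηz] at h3
  exact h3

end Pool.Agent.K3h7.WF
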