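import Pool.Agent.R80.WF.Asm

/-!
# Location of the roots of a self-reciprocal polynomial whose first half has no small root
-/

set_option autoImplicit false

namespace Pool.Agent.K3h7.WF

open Polynomial Pool.Agent.R80.WF

/-- the first half, as a polynomial over `ℂ` -/
noncomputable def Ap (g : ℕ) (a : ℕ → ℤ) : ℂ[X] :=
  ∑ i ∈ Finset.range g, C (a i : ℂ) * X ^ i + C ((a g : ℂ) / 2) * X ^ g

theorem eval_Ap (g : ℕ) (a : ℕ → ℤ) (z : ℂ) : (Ap g a).eval z =
    ∑ i ∈ Finset.range g, (a i : ℂ) * z ^ i + (a g : ℂ) / 2 * z ^ g := by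
  unfold Ap
  simp [eval_finsetSum]

theorem natDegree_Ap (g : ℕ) (a : ℕ → ℤ) : (Ap g a).natDegree ≤ g := by
  unfold Ap
  refine natDegree_add_le_of_degree_le ?_ (natDegree_C_mul_X_pow_le _ _)
  apply natDegree_sum_le_of_forall_le
  intro i hi
  exact (natDegree_C_mul_X_pow_le _ _).trans (Finset.mem_range.1 hi).le

theorem conj_Ap (g : ℕ) (a : ℕ → ℤ) (z : ℂ) :
    (Ap g a).eval ((starRingEnd ℂ) z) = (starRingEnd ℂ) ((Ap g a).eval z) := by
  rw [eval_Ap, eval_Ap]
  have h2 : (starRingEnd ℂ) 2 = 2 := map_ofNat _ 2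
  simp [map_sum, h2]

/-- one factor -/
theorem factor_le {z ρ : ℂ} (hz0 : z ≠ 0) (hz : Complex.normSq z < 1 / 2)
    (hρ : 1 / 2 < Complex.normSq ρ) :
    2 * Complex.normSq z * Complex.normSq (1 / (2 * (starRingEnd ℂ) z) - ρ) ≤
      Complex.normSq (z - ρ) := by
  have hc0 : (starRingEnd ℂ) z ≠ 0 := (_root_.map_ne_zero _).2 hz0
  have h1 : 1 / (2 * (starRingEnd ℂ) z) - ρ = (1 - 2 * (starRingEnd ℂ) z * ρ) /
      (2 * (starRingEnd ℂ) z) := by
    field_simp
  have h2 : Complex.normSq z ≠ 0 := by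
    rw [Ne, Complex.normSq_eq_zero]
    exact hz0
  rw [h1, Complex.normSq_div, Complex.normSq_mul, Complex.normSq_conj]
  have h3 : Complex.normSq (2 : ℂ) = 4 := by
    rw [Complex.normSq_apply]
    norm_num
  rw [h3]
  have h4 : 2 * Complex.normSq z * (Complex.normSq (1 - 2 * (starRingEnd ℂ) z * ρ) /
      (4 * Complex.normSq z)) = Complex.normSq (1 - 2 * (starRingEnd ℂ) z * ρ) / 2 := by
    field_simp
    ring
  rw [h4]
  have h5 : 0 < (1 - 2 * Complex.normSq z) * (2 * Complex.normSq ρ - 1) := by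
    apply mul_pos <;> linarith
  simp only [Complex.normSq_apply, Complex.sub_re, Complex.sub_im, Complex.mul_re, Complex.mul_im,
    Complex.one_re, Complex.one_im, Complex.conj_re, Complex.conj_im, Complex.re_ofNat,
    Complex.im_ofNat] at h5 ⊢
  nlinarith

theorem prod_le {z : ℂ} (hz0 : z ≠ 0) (hz : Complex.normSq z < 1 / 2) (s : Multiset ℂ)
    (hs : ∀ ρ ∈ s, 1 / 2 < Complex.normSq ρ) :
    (2 * Complex.normSq z) ^ s.card *
      (s.map (fun ρ => Complex.normSq (1 / (2 * (starRingEnd ℂ) z) - ρ))).prod ≤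
      (s.map (fun ρ => Complex.normSq (z - ρ))).prod := by
  induction s using Multiset.induction_on with
  | empty => simp
  | cons ρ s ih =>
    rw [Multiset.map_cons, Multiset.map_cons, Multiset.prod_cons, Multiset.prod_cons,
      Multiset.card_cons, pow_succ]
    have h1 := ih (fun y hy => hs y (Multiset.mem_cons_of_mem hy))
    have h2 := factor_le hz0 hz (hs ρ (Multiset.mem_cons_self ρ s))
    have h3 : 0 ≤ (2 * Complex.normSq z) ^ s.card *
      (s.map (fun ρ => Complex.normSq (1 / (2 * (starRingEnd ℂ) z) - ρ))).prod := by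
      apply mul_nonneg
      · have := Complex.normSq_nonneg z
        positivity
      · apply Multiset.prod_nonneg
        intro y hy
        obtain ⟨t, -, rfl⟩ := Multiset.mem_map.1 hy
        exact Complex.normSq_nonneg _
    calc _ = (2 * Complex.normSq z * Complex.normSq (1 / (2 * (starRingEnd ℂ) z) - ρ)) *
        ((2 * Complex.normSq z) ^ s.card *
        (s.map (fun ρ => Complex.normSq (1 / (2 * (starRingEnd ℂ) z) - ρ))).prod) := by ring
      _ ≤ _ := mul_le_mul h2 h1 h3 (Complex.normSq_nonneg _)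

theorem normSq_eval_eq (p : ℂ[X]) (z : ℂ) : Complex.normSq (p.eval z) =
    Complex.normSq p.leadingCoeff * (p.roots.map (fun ρ => Complex.normSq (z - ρ))).prod := by
  have hs : p.Splits := IsAlgClosed.splits _
  have h1 := hs.eq_prod_roots
  conv_lhs => rw [h1]
  rw [eval_mul, eval_C, eval_multiset_prod, Multiset.map_map, map_mul, map_multiset_prod,
    Multiset.map_map]
  simp

theorem eval_le {p : ℂ[X]} (hr : ∀ ρ : ℂ, p.eval ρ = 0 → 1 / 2 < Complex.normSq ρ)
    {z : ℂ} (hz0 : z ≠ 0) (hz : Complex.normSq z < 1 / 2) :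
    (2 * Complex.normSq z) ^ p.natDegree *
      Complex.normSq (p.eval (1 / (2 * (starRingEnd ℂ) z))) ≤ Complex.normSq (p.eval z) := by
  have hs : p.Splits := IsAlgClosed.splits _
  have h1 := prod_le hz0 hz p.roots (fun ρ hρ => hr ρ (isRoot_of_mem_roots hρ))
  rw [← hs.natDegree_eq_card_roots] at h1
  rw [normSq_eval_eq, normSq_eval_eq]
  have h2 := Complex.normSq_nonneg p.leadingCoeff
  nlinarith [mul_le_mul_of_nonneg_left h1 h2]

theorem aeval_PP {g : ℕ} (a : ℕ → ℤ) {x : ℂ} (hx : x ≠ 0) : aeval x (PP 2 g a) =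
    x ^ (2 * g) * (Ap g a).eval (1 / x) + 2 ^ g * (Ap g a).eval (x / 2) := by
  rw [eval_Ap, eval_Ap]
  have h1 : aeval x (PP 2 g a) = ∑ i ∈ Finset.range g, (a i : ℂ) *
      (x ^ (2 * g - i) + 2 ^ (g - i) * x ^ i) + (a g : ℂ) * x ^ g := by
    have e2 : (aeval x) (2 : ℤ[X]) = (2 : ℂ) := map_ofNat _ 2
    simp [PP, map_sum, e2]
  rw [h1, mul_add, mul_add, Finset.mul_sum, Finset.mul_sum]
  have h2 : ∀ i ∈ Finset.range g, (a i : ℂ) * (x ^ (2 * g - i) + 2 ^ (g - i) * x ^ i) =
      x ^ (2 * g) * ((a i : ℂ) * (1 / x) ^ i) + 2 ^ g * ((a i : ℂ) * (x / 2) ^ i) := by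
    intro i hi
    have hi' := (Finset.mem_range.1 hi).le
    have e1 : x ^ (2 * g) = x ^ (2 * g - i) * x ^ i := by
      rw [← pow_add]
      congr 1
      omega
    have e2 : (2 : ℂ) ^ g = 2 ^ (g - i) * 2 ^ i := by
      rw [← pow_add]
      congr 1
      omega
    have e3 : x ^ i * (1 / x) ^ i = 1 := by
      rw [← mul_pow, mul_one_div_cancel hx, one_pow]
    have e4 : (2 : ℂ) ^ i * (x / 2) ^ i = x ^ i := by
      rw [← mul_pow, mul_div_cancel₀ _ two_ne_zero]
    rw [e1, e2]
    linear_combination (-(a i : ℂ) * x ^ (2 * g - i)) * e3 - ((a i : ℂ) * 2 ^ (g - i)) * e4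
  rw [Finset.sum_congr rfl h2, Finset.sum_add_distrib]
  have h3 : (a g : ℂ) * x ^ g = x ^ (2 * g) * ((a g : ℂ) / 2 * (1 / x) ^ g) +
      2 ^ g * ((a g : ℂ) / 2 * (x / 2) ^ g) := by
    have e1 : x ^ (2 * g) = x ^ g * x ^ g := by
      rw [← pow_add]
      congr 1
      omega
    have e3 : x ^ g * (1 / x) ^ g = 1 := by
      rw [← mul_pow, mul_one_div_cancel hx, one_pow]
    have e4 : (2 : ℂ) ^ g * (x / 2) ^ g = x ^ g := by
      rw [← mul_pow, mul_div_cancel₀ _ two_ne_zero]
    rw [e1]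
    linear_combination (-(a g : ℂ) / 2 * x ^ g) * e3 - ((a g : ℂ) / 2) * e4
  rw [h3]
  ring

/-- Location of the roots. -/
theorem root_nv {g : ℕ} (hg : 1 ≤ g) {a : ℕ → ℤ} (ha0 : a 0 = 1)
    (hA : ∀ z : ℂ, Complex.normSq z ≤ 1 / 2 → (Ap g a).eval z ≠ 0) (x : ℂ)
    (hx : aeval x (PP 2 g a) = 0) : Complex.normSq x = 2 := by
  have hx0 : ∀ y : ℂ, aeval y (PP 2 g a) = 0 → y ≠ 0 := by
    rintro y hy rfl
    have h1 : (PP 2 g a).coeff 0 = 2 ^ g := by
      rw [coeff_PP, if_pos (by omega), ha0]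
      simp
    have h2 : aeval (0 : ℂ) (PP 2 g a) = (((PP 2 g a).coeff 0 : ℤ) : ℂ) := by
      rw [← coeff_zero_eq_aeval_zero']
      rfl
    rw [h2, h1] at hy
    push_cast at hy
    exact pow_ne_zero g two_ne_zero hy
  have key : ∀ y : ℂ, aeval y (PP 2 g a) = 0 → Complex.normSq y ≤ 2 := by
    intro y hy
    by_contra hcon
    push Not at hcon
    have hy0 := hx0 y hy
    have hn0 : 0 < Complex.normSq y := Complex.normSq_pos.2 hy0
    rw [aeval_PP a hy0] at hy
    set z : ℂ := 1 / y with hz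
    have hz0 : z ≠ 0 := one_div_ne_zero hy0
    have hzn : Complex.normSq z = 1 / Complex.normSq y := by
      rw [hz, Complex.normSq_div, Complex.normSq_one]
    have hzlt : Complex.normSq z < 1 / 2 := by
      rw [hzn]
      exact one_div_lt_one_div_of_lt (by norm_num) hcon
    have hr : ∀ ρ : ℂ, (Ap g a).eval ρ = 0 → 1 / 2 < Complex.normSq ρ := by
      intro ρ hρ
      by_contra hle
      exact hA ρ (not_lt.1 hle) hρ
    have h1 := eval_le hr hz0 hzlt
    have hw : 1 / (2 * (starRingEnd ℂ) z) = (starRingEnd ℂ) (y / 2) := by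
      rw [hz, map_div₀, map_div₀, map_one, map_ofNat]
      have : (starRingEnd ℂ) y ≠ 0 := (_root_.map_ne_zero _).2 hy0
      field_simp
    rw [hw, conj_Ap, Complex.normSq_conj] at h1
    set B := Complex.normSq ((Ap g a).eval (y / 2)) with hB
    set Az := Complex.normSq ((Ap g a).eval z) with hAz
    have hAz0 : 0 < Az := Complex.normSq_pos.2 (hA z hzlt.le)
    have h2 : (Complex.normSq y) ^ (2 * g) * Az = 4 ^ g * B := by
      have e1 : y ^ (2 * g) * (Ap g a).eval z = -(2 ^ g * (Ap g a).eval (y / 2)) := by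
        linear_combination hy
      have e2 := congrArg Complex.normSq e1
      rw [Complex.normSq_neg, map_mul, map_mul, map_pow, map_pow] at e2
      have e3 : Complex.normSq (2 : ℂ) = 4 := by
        rw [Complex.normSq_apply]
        norm_num
      rw [e3] at e2
      exact e2
    have hB0 : 0 < B := by
      have : 0 < 4 ^ g * B := by
        rw [← h2]
        positivity
      exact (mul_pos_iff_of_pos_left (by positivity)).1 this
    set t := 2 * Complex.normSq z with ht
    have ht0 : 0 < t := by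
      have := Complex.normSq_pos.2 hz0
      positivity
    have ht1 : t < 1 := by linarith
    have h3 : t ^ g ≤ t ^ (Ap g a).natDegree :=
      pow_le_pow_of_le_one ht0.le ht1.le (natDegree_Ap g a)
    have h4 : t ^ g * B ≤ Az := (mul_le_mul_of_nonneg_right h3 hB0.le).trans h1
    have h5 : Complex.normSq y * t = 2 := by
      rw [ht, hzn]
      field_simp
    have h6 : (Complex.normSq y) ^ (2 * g) * (t ^ g * B) ≤ 4 ^ g * B := by
      rw [← h2]
      exact mul_le_mul_of_nonneg_left h4 (by positivity)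
    have h7 : (Complex.normSq y) ^ (2 * g) * (t ^ g * B) =
        (Complex.normSq y) ^ g * 2 ^ g * B := by
      rw [← h5, mul_pow]
      ring
    rw [h7] at h6
    have h8 : (Complex.normSq y) ^ g * 2 ^ g ≤ 4 ^ g := le_of_mul_le_mul_right h6 hB0
    have h9 : (2 : ℝ) ^ g < (Complex.normSq y) ^ g := pow_lt_pow_left₀ hcon (by norm_num) (by omega)
    have h10 : (4 : ℝ) ^ g = 2 ^ g * 2 ^ g := by
      rw [← mul_pow]
      norm_num
    rw [h10] at h8
    have h11 : (0 : ℝ) < 2 ^ g := by positivity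
    nlinarith
  apply le_antisymm (key x hx)
  have hxne := hx0 x hx
  have hn0 : 0 < Complex.normSq x := Complex.normSq_pos.2 hxne
  have h1 : aeval (2 / x) (PP 2 g a) = 0 := by
    have h20 : (2 / x : ℂ) ≠ 0 := div_ne_zero two_ne_zero hxne
    rw [aeval_PP a h20]
    rw [aeval_PP a hxne] at hx
    have e1 : (1 / (2 / x) : ℂ) = x / 2 := by field_simp
    have e2 : (2 / x / 2 : ℂ) = 1 / x := by field_simp
    rw [e1, e2]
    have e3 : (2 / x : ℂ) ^ (2 * g) = 2 ^ g * 2 ^ g / x ^ (2 * g) := by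
      rw [div_pow, ← pow_add]
      congr 2
      omega
    rw [e3]
    have hxp : x ^ (2 * g) ≠ 0 := pow_ne_zero _ hxne
    field_simp
    linear_combination (2 : ℂ) ^ g * hx
  have h2 := key _ h1
  rw [Complex.normSq_div] at h2
  have e3 : Complex.normSq (2 : ℂ) = 4 := by
    rw [Complex.normSq_apply]
    norm_num
  rw [e3, div_le_iff₀ hn0] at h2
  linarith

end Pool.Agent.K3h7.WF
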