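import Pool.Agent.K3h7.WF.Crit
import Pool.Agent.K3h7.WF.Mu
import Pool.Agent.K3h7.WF.Irr
import Pool.Agent.K3h7.WF.Root2

/-!
# Assembly for `p = 2`
-/

set_option autoImplicit false

namespace Pool.Agent.K3h7.WF

open Polynomial Pool.Agent.R80.WF IntermediateField NumberField

theorem mu_of {P : ℤ[X]} (hm : P.Monic) (hirr : Irreducible (P.map (Int.castRingHom ℚ)))
    (h6 : P.eval 1 % 9 = 6) {x : ℂ} (hx : aeval x P = 0) :
    ∀ z ∈ adjoin ℚ {x}, ∀ n : ℕ, 1 ≤ n → z ^ n = 1 → z ^ 2 = 1 := by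
  intro z hz n hn hzn
  have hmin := minpoly_eq hm hirr hx
  have hxi := isIntegral_Q hm hx
  have hxZ : IsIntegral ℤ x := ⟨P, hm, by rwa [← aeval_def]⟩
  have hfd : FiniteDimensional ℚ ℚ⟮x⟯ := adjoin.finiteDimensional hxi
  have hnf : NumberField ℚ⟮x⟯ := { to_charZero := inferInstance, to_finiteDimensional := hfd }
  set ξ : ℚ⟮x⟯ := AdjoinSimple.gen ℚ x with hξ
  have hξx : algebraMap ℚ⟮x⟯ ℂ ξ = x := AdjoinSimple.algebraMap_gen ℚ x
  have hξi : IsIntegral ℤ ξ := by
    rw [← isIntegral_algebraMap_iff (B := ℂ) (FaithfulSMul.algebraMap_injective ℚ⟮x⟯ ℂ), hξx]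
    exact hxZ
  obtain ⟨ξ', hξ'⟩ : ∃ ξ' : 𝓞 ℚ⟮x⟯, algebraMap (𝓞 ℚ⟮x⟯) ℚ⟮x⟯ ξ' = ξ := ⟨⟨ξ, hξi⟩, rfl⟩
  set α : 𝓞 ℚ⟮x⟯ := 1 - ξ' with hα
  have hαc : algebraMap (𝓞 ℚ⟮x⟯) ℚ⟮x⟯ α = 1 - ξ := by
    rw [hα, map_sub, map_one, hξ']
  have hN : Algebra.norm ℤ α = P.eval 1 := by
    have h1 : Algebra.norm ℚ (1 - ξ) = ((P.eval 1 : ℤ) : ℚ) := by
      have h2 := norm_sub_gen (adjoin.powerBasis hxi) 1
      rw [adjoin.powerBasis_gen, minpoly_gen, hmin, map_one] at h2
      rw [hξ]
      refine h2.trans ?_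
      have := eval_intCast_map (Int.castRingHom ℚ) P 1
      rw [Int.cast_one] at this
      rw [this]
      rfl
    have h3 := Algebra.coe_norm_int α
    rw [← hαc] at h1
    have : ((Algebra.norm ℤ α : ℤ) : ℚ) = ((P.eval 1 : ℤ) : ℚ) := by
      rw [h3]
      exact h1
    exact_mod_cast this
  have h1 := mu_two hN h6 (z := (⟨z, hz⟩ : ℚ⟮x⟯)) hn (by
    apply Subtype.ext
    simpa using hzn)
  have h2 := congrArg (algebraMap ℚ⟮x⟯ ℂ) h1
  rw [map_pow, map_one] at h2
  exact h2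

theorem map_PP3 {g : ℕ} {a : ℕ → ℤ}
    (ha : ∀ i, i ≤ g → ((a i : ℤ) : ZMod 3) =
      if 2 ∣ i then (-1) ^ (i / 2) * ((g.choose (i / 2) : ℕ) : ZMod 3) else 0) :
    (PP 2 g a).map (Int.castRingHom (ZMod 3)) = (X ^ 2 - 1) ^ g := by
  have hX : ((X : (ZMod 3)[X]) ^ 2 - 1) ^ g = expand (ZMod 3) 2 ((X + C (-1)) ^ g) := by
    rw [map_pow, map_add, expand_X, expand_C, C_neg, C_1]
    ring
  rw [hX]
  ext k
  rw [coeff_map, coeff_expand (by norm_num : 0 < 2), coeff_X_add_C_pow, coeff_PP]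
  have h2 : ((2 : ℕ) : ZMod 3) = -1 := by decide +revert
  by_cases hk : k < g
  · rw [if_pos hk]
    simp only [eq_intCast, Int.cast_mul, Int.cast_pow, Int.cast_natCast, h2]
    rw [ha k hk.le]
    split_ifs with h
    · obtain ⟨m, rfl⟩ := h
      have e1 : 2 * m / 2 = m := by omega
      rw [e1]
      have e2 : g - m = (g - 2 * m) + m := by omega
      rw [e2, pow_add]
      ring
    · ring
  · rw [if_neg hk]
    by_cases hkg : k = g
    · rw [if_pos hkg]
      subst hkg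
      simp only [eq_intCast]
      rw [ha k le_rfl]
      split_ifs with h
      · obtain ⟨m, rfl⟩ := h
        have e1 : 2 * m / 2 = m := by omega
        have e2 : 2 * m - m = m := by omega
        rw [e1, e2]
      · rfl
    · rw [if_neg hkg]
      by_cases hk2 : k ≤ 2 * g
      · rw [if_pos hk2]
        simp only [eq_intCast]
        rw [ha (2 * g - k) (by omega)]
        by_cases h : 2 ∣ k
        · rw [if_pos (by omega), if_pos h]
          obtain ⟨m, rfl⟩ := h
          have e1 : (2 * g - 2 * m) / 2 = g - m := by omega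
          have e2 : 2 * m / 2 = m := by omega
          rw [e1, e2, Nat.choose_symm (by omega)]
        · rw [if_neg (by omega), if_neg h]
      · rw [if_neg hk2]
        split_ifs with h
        · rw [Nat.choose_eq_zero_of_lt (by omega)]
          simp
        · simp

theorem eval_one_PP {g : ℕ} {a : ℕ → ℤ} : (PP 2 g a).eval 1 =
    ∑ i ∈ Finset.range g, a i * (1 + 2 ^ (g - i)) + a g := by
  unfold PP
  simp [eval_finsetSum]

/-- The construction. -/
theorem good2 {g f : ℕ} {a : ℕ → ℤ} (hg : 1 ≤ g) (hfg : f ≤ g) (ha0 : a 0 = 1)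
    (h3 : ∀ i, i ≤ g → ((a i : ℤ) : ZMod 3) =
      if 2 ∣ i then (-1) ^ (i / 2) * ((g.choose (i / 2) : ℕ) : ZMod 3) else 0)
    (hodd : ¬ (2 : ℤ) ∣ a f) (heven : ∀ i, f < i → i ≤ g → (2 : ℤ) ∣ a i)
    (h6 : (∑ i ∈ Finset.range g, a i * (1 + 2 ^ (g - i)) + a g) % 9 = 6)
    (hd : ∀ d : ℕ, d ∣ 2 * g → (∀ i, i ≤ g → a i ≠ 0 → d ∣ i) → d = 1)
    (hroot : ∀ x : ℂ, aeval x (PP 2 g a) = 0 → Complex.normSq x = 2) : Good 2 g f := by
  have hm : (PP 2 g a).Monic := monic_PP hg ha0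
  have hdeg : (PP 2 g a).natDegree = 2 * g := natDegree_PP hg ha0
  have he1 : (PP 2 g a).eval 1 % 9 = 6 := by rw [eval_one_PP]; exact h6
  have hirr : Irreducible ((PP 2 g a).map (Int.castRingHom ℚ)) :=
    irreducible_of hm (by omega) (map_PP3 h3) hroot (by omega)
  refine ⟨PP 2 g a, hm, hdeg, hirr, ?_, ?_, ?_, ?_⟩
  · intro x hx
    have h1 := hroot x hx
    rw [Complex.normSq_eq_norm_sq] at h1
    rw [← Real.sqrt_sq (norm_nonneg x), h1]
    norm_num
  · intro i hi
    rw [coeff_PP]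
    split_ifs with h1 h2 h4
    · exact Dvd.dvd.mul_right (dvd_pow_self _ (by omega)) _
    · exact heven g (by omega) le_rfl
    · exact heven (2 * g - i) (by omega) (by omega)
    · exact dvd_zero _
  · rw [coeff_PP]
    by_cases hfg' : f = g
    · subst hfg'
      rw [if_neg (by omega), if_pos (by omega)]
      exact_mod_cast hodd
    · rw [if_neg (by omega), if_neg (by omega), if_pos (by omega)]
      have : 2 * g - (2 * g - f) = f := by omega
      rw [this]
      exact_mod_cast hodd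
  · intro x hx n hn
    have hx0 : x ≠ 0 := by
      rintro rfl
      have := hroot 0 hx
      rw [map_zero] at this
      norm_num at this
    refine adjoin_pow_of_mu hm hirr ?_ hx hx0 (mu_of hm hirr he1 hx) hn
    intro d hdd
    apply hd d
    · apply hdd
      rw [coeff_PP, if_neg (by omega), if_neg (by omega), if_pos le_rfl, Nat.sub_self, ha0]
      norm_num
    · intro i hi hai
      apply hdd
      rw [coeff_PP]
      rcases hi.lt_or_eq with h | h
      · rw [if_pos h]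
        exact mul_ne_zero (pow_ne_zero _ (by norm_num)) hai
      · rw [if_neg (by omega), if_pos h, ← h]
        exact hai

end Pool.Agent.K3h7.WF
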