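import Pool.Agent.K3h7.WF.BigTbl

/-!
# The construction for `g ≥ 19`
-/

set_option autoImplicit false
set_option linter.unusedSectionVars false
set_option linter.unusedVariables false

namespace Pool.Agent.K3h7.WF

open Polynomial Pool.Agent.R80.WF

/-- `(-1)^j C(g,j)` modulo 3, in `{-1, 0, 1}` -/
def ctr (g j : ℕ) : ℤ :=
  if ((-1) ^ j * (Nat.choose g j : ℤ)) % 3 = 2 then -1 else ((-1) ^ j * (Nat.choose g j : ℤ)) % 3

theorem ctr_mod (g j : ℕ) : (ctr g j - (-1) ^ j * (Nat.choose g j : ℤ)) % 3 = 0 := by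
  unfold ctr
  split_ifs <;> omega

theorem ctr_cases (g j : ℕ) : ctr g j = 0 ∨ ctr g j = 1 ∨ ctr g j = -1 := by
  unfold ctr
  split_ifs <;> omega

/-- generic coefficients -/
def base (g f i : ℕ) : ℤ :=
  if i % 2 = 1 then (if i = f then 3 else 0) else
    if i < f then ctr g (i / 2) else
      if i = f then (if ctr g (i / 2) = 0 then 3 else ctr g (i / 2)) else -2 * ctr g (i / 2)

/-- the coefficients below `g` -/
def pre (g f i : ℕ) : ℤ :=
  if i < 18 then (tabA (min f 18) (g % 9)).getD i 0 else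
    if i = g - 1 ∧ base g f i = 0 then 6 else base g f i

/-- the sum which determines the last coefficient -/
def S (g f : ℕ) : ℤ := ∑ i ∈ Finset.range g, pre g f i * (1 + 2 ^ (g - i))

/-- the last coefficient -/
def last (g f : ℕ) : ℤ := (10 * (6 - S g f) + 9 * (if f = g then 1 else 0) - 1) % 18 + 1

/-- all coefficients -/
def co (g f i : ℕ) : ℤ := if i = g then last g f else pre g f i

/-- the class of a coefficient modulo 3 -/
def Cls (g i : ℕ) (c : ℤ) : Prop := ((c : ℤ) : ZMod 3) =
    if 2 ∣ i then (-1) ^ (i / 2) * ((g.choose (i / 2) : ℕ) : ZMod 3) else 0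

theorem cls_of_mod {g i : ℕ} {c d : ℤ} (h : (c - d) % 3 = 0) (hd : Cls g i d) : Cls g i c := by
  have h1 : ((c - d : ℤ) : ZMod 3) = 0 := by
    rw [three_dvd_iff]
    exact Int.dvd_of_emod_eq_zero h
  rw [Int.cast_sub, sub_eq_zero] at h1
  unfold Cls at hd ⊢
  rw [h1, hd]

theorem cls_ctr {g j : ℕ} : Cls g (2 * j) (ctr g j) := by
  apply cls_of_mod (ctr_mod g j)
  unfold Cls
  rw [if_pos (dvd_mul_right 2 j)]
  have : 2 * j / 2 = j := by omega
  rw [this]
  push_cast
  rfl

theorem cls_base (g f i : ℕ) : Cls g i (base g f i) := by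
  unfold base
  by_cases hi : i % 2 = 1
  · rw [if_pos hi]
    have h0 : Cls g i 0 := by
      unfold Cls
      rw [if_neg (by omega)]
      simp
    split_ifs
    · exact cls_of_mod (by norm_num) h0
    · exact h0
  · rw [if_neg hi]
    obtain ⟨j, rfl⟩ : ∃ j, i = 2 * j := ⟨i / 2, by omega⟩
    have e : 2 * j / 2 = j := by omega
    rw [e]
    have h0 : Cls g (2 * j) (ctr g j) := cls_ctr
    split_ifs with h1 h2 h3
    · exact h0
    · rw [h3] at h0
      exact cls_of_mod (by norm_num) h0
    · exact h0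
    · refine cls_of_mod ?_ h0
      omega

theorem cl_mod9 {g i : ℕ} (hi : i < 18) : cl (g % 9) i = cl g i := by
  unfold cl
  split_ifs with h
  · congr 2
    unfold lc
    have e1 : g % 9 % 3 = g % 3 := by omega
    have e2 : g % 9 / 3 % 3 = g / 3 % 3 := by omega
    have e3 : i / 2 / 9 = 0 := by omega
    rw [e1, e2, e3, Nat.choose_zero_right, Nat.choose_zero_right]
  · rfl

section

variable {g f : ℕ} (hg : 19 ≤ g) (hf : 2 ≤ f) (hfg : f ≤ g)

include hg hf hfg

theorem chk : ChkB (min f 18) (g % 9) := chkB (by omega) (by omega) (by omega)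

theorem pre_zero : pre g f 0 = 1 := by
  unfold pre
  rw [if_pos (by omega)]
  exact (chk hg hf hfg).1

theorem cls_pre (i : ℕ) : Cls g i (pre g f i) := by
  unfold pre
  by_cases hi : i < 18
  · rw [if_pos hi]
    have h1 := (chk hg hf hfg).2.1 i hi
    rw [cl_mod9 hi] at h1
    exact cl_eq h1
  · rw [if_neg hi]
    split_ifs with h
    · have h1 := cls_base g f i
      rw [h.2] at h1
      exact cls_of_mod (by norm_num) h1
    · exact cls_base g f i

theorem base_odd (h : 18 ≤ f) : base g f f % 2 = 1 := by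
  unfold base
  rcases ctr_cases g (f / 2) with h1 | h1 | h1 <;> rw [h1] <;> split_ifs <;> omega

theorem base_even {i : ℕ} (h : f < i) : base g f i % 2 = 0 := by
  unfold base
  split_ifs <;> omega

theorem pre_odd (h : f < g) : pre g f f % 2 = 1 := by
  unfold pre
  by_cases h18 : f < 18
  · rw [if_pos h18]
    have h1 := (chk hg hf hfg).2.2.1
    have e : min f 18 = f := by omega
    rw [e] at h1 ⊢
    exact h1 h18
  · rw [if_neg h18]
    have h1 := base_odd hg hf hfg (by omega)
    rw [if_neg]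
    · exact h1
    · rintro ⟨-, h2⟩
      omega

theorem pre_even {i : ℕ} (h : f < i) : pre g f i % 2 = 0 := by
  unfold pre
  by_cases h18 : i < 18
  · rw [if_pos h18]
    exact (chk hg hf hfg).2.2.2.1 i h18 (by omega)
  · rw [if_neg h18]
    split_ifs
    · norm_num
    · exact base_even hg hf hfg h

theorem last_mod9 : (S g f + last g f) % 9 = 6 := by
  unfold last
  split_ifs <;> omega

theorem last_par : last g f % 2 = if f = g then 1 else 0 := by
  unfold last
  split_ifs <;> omega

theorem last_pos : 1 ≤ last g f ∧ last g f ≤ 18 := by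
  unfold last
  split_ifs <;> omega

theorem cls_last : Cls g g (last g f) := by
  -- compare with the polynomial `(X^2-1)^g` itself
  set b : ℕ → ℤ := fun i => if 2 ∣ i then (-1) ^ (i / 2) * ((g.choose (i / 2) : ℕ) : ℤ) else 0
    with hb
  have hbc : ∀ i, ((b i : ℤ) : ZMod 3) =
      if 2 ∣ i then (-1) ^ (i / 2) * ((g.choose (i / 2) : ℕ) : ZMod 3) else 0 := by
    intro i
    rw [hb]
    dsimp only
    split_ifs <;> push_cast <;> rfl
  have h1 := map_PP3 (g := g) (a := b) (fun i _ => hbc i)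
  have h2 := congrArg (fun p => eval 1 p) h1
  simp only [eval_pow, eval_sub, eval_X, eval_one, one_pow, sub_self] at h2
  rw [zero_pow (by omega)] at h2
  have h3 := eval_intCast_map (Int.castRingHom (ZMod 3)) (PP 2 g b) 1
  rw [Int.cast_one, h2] at h3
  simp only [Int.cast_one] at h3
  rw [eval_one_PP] at h3
  have h4 : ((S g f + last g f : ℤ) : ZMod 3) = 0 := by
    rw [three_dvd_iff]
    have := last_mod9 hg hf hfg
    omega
  have h5 : ((S g f : ℤ) : ZMod 3) =
      ((∑ i ∈ Finset.range g, b i * (1 + 2 ^ (g - i)) : ℤ) : ZMod 3) := by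
    unfold S
    push_cast
    refine Finset.sum_congr rfl fun i _ => ?_
    have := cls_pre hg hf hfg i
    unfold Cls at this
    rw [this, hbc]
  unfold Cls
  rw [← hbc]
  have h6 : (((∑ i ∈ Finset.range g, b i * (1 + 2 ^ (g - i)) + b g : ℤ)) : ZMod 3) = 0 := by
    exact h3.symm
  rw [Int.cast_add] at h4 h6
  rw [h5] at h4
  linear_combination h4 - h6

theorem cls_co (i : ℕ) : Cls g i (co g f i) := by
  unfold co
  split_ifs with h
  · rw [h]
    exact cls_last hg hf hfg
  · exact cls_pre hg hf hfg i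

theorem pre_abs {i : ℕ} (hi : 18 ≤ i) :
    |pre g f i| ≤ 3 + (if i = g - 1 then 3 else 0) := by
  have hb : |base g f i| ≤ 3 := by
    unfold base
    rcases ctr_cases g (i / 2) with h1 | h1 | h1 <;> rw [h1] <;> split_ifs <;> norm_num
  unfold pre
  rw [if_neg (by omega)]
  split_ifs with h1 h2 h2
  · norm_num
  · exact absurd h1.1 h2
  · linarith
  · linarith

theorem pre_last_ne : pre g f (g - 1) ≠ 0 := by
  unfold pre
  rw [if_neg (by omega)]
  split_ifs with h1
  · norm_num
  · intro h2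
    exact h1 ⟨rfl, h2⟩

theorem tail_le {z : ℂ} (hz : ‖z‖ ≤ 17 / 24) :
    ‖∑ i ∈ Finset.Ico 18 g, ((pre g f i : ℤ) : ℂ) * z ^ i + ((last g f : ℤ) : ℂ) / 2 * z ^ g‖ ≤
      1 / 25 := by
  have hz0 := norm_nonneg z
  have h1 : ‖∑ i ∈ Finset.Ico 18 g, ((pre g f i : ℤ) : ℂ) * z ^ i‖ ≤
      ∑ i ∈ Finset.Ico 18 g, (3 * (17 / 24 : ℝ) ^ i + if i = g - 1 then 3 * (17 / 24 : ℝ) ^ i else 0) := by
    refine (norm_sum_le _ _).trans (Finset.sum_le_sum fun i hi => ?_)
    rw [Finset.mem_Ico] at hi
    rw [norm_mul, norm_pow, Complex.norm_intCast]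
    have h2 := pre_abs hg hf hfg hi.1
    have h3 : |((pre g f i : ℤ) : ℝ)| ≤ 3 + (if i = g - 1 then 3 else 0) := by
      split_ifs at h2 ⊢ <;> exact_mod_cast h2
    have h4 : ‖z‖ ^ i ≤ (17 / 24 : ℝ) ^ i := pow_le_pow_left₀ hz0 hz i
    have h5 : (0 : ℝ) ≤ 3 + (if i = g - 1 then 3 else 0) := by split_ifs <;> norm_num
    refine (mul_le_mul h3 h4 (by positivity) h5).trans (le_of_eq ?_)
    split_ifs <;> ring
  have h2 : ∑ i ∈ Finset.Ico 18 g, (3 * (17 / 24 : ℝ) ^ i +
      if i = g - 1 then 3 * (17 / 24 : ℝ) ^ i else 0) ≤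
      3 * ((17 / 24 : ℝ) ^ 18 / (1 - 17 / 24)) + 3 * (17 / 24 : ℝ) ^ 18 := by
    rw [Finset.sum_add_distrib, ← Finset.mul_sum, Finset.sum_ite_eq', if_pos
      (Finset.mem_Ico.2 ⟨by omega, by omega⟩)]
    apply add_le_add
    · apply mul_le_mul_of_nonneg_left _ (by norm_num)
      exact geom_sum_Ico_le_of_lt_one (by norm_num) (by norm_num)
    · apply mul_le_mul_of_nonneg_left _ (by norm_num)
      exact pow_le_pow_of_le_one (by norm_num) (by norm_num) (by omega)
  have h3 : ‖((last g f : ℤ) : ℂ) / 2 * z ^ g‖ ≤ 9 * (17 / 24 : ℝ) ^ 19 := by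
    rw [norm_mul, norm_div, norm_pow, Complex.norm_intCast]
    obtain ⟨e1, e2⟩ := last_pos hg hf hfg
    have e3 : |((last g f : ℤ) : ℝ)| ≤ 18 := by
      rw [abs_le]
      constructor
      · have : (1 : ℝ) ≤ ((last g f : ℤ) : ℝ) := by exact_mod_cast e1
        linarith
      · exact_mod_cast e2
    have e4 : ‖z‖ ^ g ≤ (17 / 24 : ℝ) ^ 19 :=
      (pow_le_pow_left₀ hz0 hz g).trans (pow_le_pow_of_le_one (by norm_num) (by norm_num) hg)
    have e5 : ‖(2 : ℂ)‖ = 2 := by norm_num
    rw [e5]
    apply mul_le_mul _ e4 (by positivity) (by norm_num)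
    linarith
  refine (norm_add_le _ _).trans ?_
  have h4 : 3 * ((17 / 24 : ℝ) ^ 18 / (1 - 17 / 24)) + 3 * (17 / 24 : ℝ) ^ 18 +
      9 * (17 / 24 : ℝ) ^ 19 ≤ 1 / 25 := by norm_num
  linarith

theorem Ap_ne {z : ℂ} (hz : Complex.normSq z ≤ 1 / 2) : (Ap g (co g f)).eval z ≠ 0 := by
  have hz1 : ‖z‖ ≤ 17 / 24 := by
    rw [Complex.normSq_eq_norm_sq] at hz
    nlinarith [norm_nonneg z]
  have h1 : (Ap g (co g f)).eval z = ev z (tabA (min f 18) (g % 9)) +
      (∑ i ∈ Finset.Ico 18 g, ((pre g f i : ℤ) : ℂ) * z ^ i + ((last g f : ℤ) : ℂ) / 2 * z ^ g) := by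
    rw [eval_Ap, ev_eq_sum]
    have hlen : (tabA (min f 18) (g % 9)).length = 18 := by
      unfold tabA
      rfl
    rw [hlen, ← add_assoc]
    have e1 : co g f g = last g f := by
      unfold co
      rw [if_pos rfl]
    rw [e1]
    congr 1
    rw [← Finset.sum_range_add_sum_Ico _ (by omega : 18 ≤ g)]
    congr 1
    · refine Finset.sum_congr rfl fun i hi => ?_
      have hi' := Finset.mem_range.1 hi
      unfold co pre
      rw [if_neg (by omega), if_pos hi']
    · refine Finset.sum_congr rfl fun i hi => ?_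
      rw [Finset.mem_Ico] at hi
      unfold co
      rw [if_neg (by omega)]
  rw [h1]
  exact cert_ne (chk hg hf hfg).2.2.2.2 hz1 (tail_le hg hf hfg hz1)

theorem good_big : Good 2 g f := by
  have hco : ∀ i, i < g → co g f i = pre g f i := by
    intro i hi
    unfold co
    rw [if_neg (by omega)]
  have hcg : co g f g = last g f := by
    unfold co
    rw [if_pos rfl]
  have h0 : co g f 0 = 1 := by
    rw [hco 0 (by omega)]
    exact pre_zero hg hf hfg
  refine good2 (a := co g f) (by omega) hfg h0 (fun i _ => cls_co hg hf hfg i) ?_ ?_ ?_ ?_ ?_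
  · rcases hfg.lt_or_eq with h | h
    · rw [hco f h]
      have := pre_odd hg hf hfg h
      omega
    · have h1 : co g f f = last g f := by rw [h, ← h]; exact h ▸ hcg
      rw [h1]
      have := last_par hg hf hfg
      rw [if_pos h] at this
      omega
  · intro i hi hig
    rcases hig.lt_or_eq with h | h
    · rw [hco i h]
      have := pre_even hg hf hfg hi
      omega
    · rw [h, hcg]
      have := last_par hg hf hfg
      rw [if_neg (by omega)] at this
      omega
  · have h1 : ∑ i ∈ Finset.range g, co g f i * (1 + 2 ^ (g - i)) = S g f := by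
      unfold S
      refine Finset.sum_congr rfl fun i hi => ?_
      rw [hco i (Finset.mem_range.1 hi)]
    rw [h1, hcg]
    exact last_mod9 hg hf hfg
  · intro d _ hd
    have h1 : d ∣ g := by
      apply hd g le_rfl
      rw [hcg]
      have := last_pos hg hf hfg
      omega
    have h2 : d ∣ g - 1 := by
      apply hd (g - 1) (by omega)
      rw [hco _ (by omega)]
      exact pre_last_ne hg hf hfg
    have h3 : d ∣ g - (g - 1) := Nat.dvd_sub h1 h2
    have h4 : g - (g - 1) = 1 := by omega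
    rw [h4] at h3
    exact Nat.dvd_one.1 h3
  · exact root_nv (by omega) h0 (fun z hz => Ap_ne hg hf hfg hz)

end

end Pool.Agent.K3h7.WF
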