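import Mathlib

/-!
# A criterion for `ℚ(xⁿ) = ℚ(x)`

If the only roots of unity in `ℚ(x)` are `±1` and the exponents of the minimal polynomial of `x`
have greatest common divisor 1, then no power of `x` generates a smaller field.
-/

set_option autoImplicit false

namespace Pool.Agent.K3h7.WF

open Polynomial IntermediateField

theorem minpoly_eq {P : ℤ[X]} (hm : P.Monic) (hirr : Irreducible (P.map (Int.castRingHom ℚ)))
    {x : ℂ} (hx : aeval x P = 0) : minpoly ℚ x = P.map (Int.castRingHom ℚ) := by
  have hQx : aeval x (P.map (Int.castRingHom ℚ)) = 0 := by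
    rw [← algebraMap_int_eq, aeval_map_algebraMap]
    exact hx
  exact (minpoly.eq_of_irreducible_of_monic hirr hQx (hm.map _)).symm

theorem isIntegral_Q {P : ℤ[X]} (hm : P.Monic) {x : ℂ} (hx : aeval x P = 0) : IsIntegral ℚ x := by
  have h : IsIntegral ℤ x := ⟨P, hm, by rwa [← aeval_def]⟩
  exact h.tower_top

/-- The criterion. -/
theorem adjoin_pow_of_mu {P : ℤ[X]} (hm : P.Monic)
    (hirr : Irreducible (P.map (Int.castRingHom ℚ)))
    (hd : ∀ d : ℕ, (∀ i, P.coeff i ≠ 0 → d ∣ i) → d = 1)
    {x : ℂ} (hx : aeval x P = 0) (hx0 : x ≠ 0)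
    (hmu : ∀ z ∈ adjoin ℚ {x}, ∀ n : ℕ, 1 ≤ n → z ^ n = 1 → z ^ 2 = 1)
    {n : ℕ} (hn : 1 ≤ n) : adjoin ℚ {x ^ n} = adjoin ℚ {x} := by
  have hmin := minpoly_eq hm hirr hx
  have hxi := isIntegral_Q hm hx
  set Q : ℚ[X] := P.map (Int.castRingHom ℚ) with hQ
  have hQm : Q.Monic := hm.map _
  set F := adjoin ℚ {x ^ n} with hF
  set K := adjoin ℚ {x} with hK
  have hxK : x ∈ K := mem_adjoin_simple_self ℚ x
  have hFK : F ≤ K := by
    rw [hF, adjoin_simple_le_iff]
    exact pow_mem hxK n
  have hxnF : x ^ n ∈ F := mem_adjoin_simple_self ℚ (x ^ n)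
  have hxF : IsIntegral F x := hxi.tower_top
  set M := minpoly F x with hM
  have hMm : M.Monic := minpoly.monic hxF
  set d := M.natDegree with hdd
  have hd0 : 0 < d := minpoly.natDegree_pos hxF
  -- roots of `M`
  have hMdvd : M ∣ X ^ n - C (⟨x ^ n, hxnF⟩ : F) := by
    apply minpoly.dvd
    rw [map_sub, map_pow, aeval_X, aeval_C]
    exact sub_self _
  set R := M.aroots ℂ with hR
  have hsp : (M.map (algebraMap F ℂ)).Splits := IsAlgClosed.splits _
  have hMmap : (M.map (algebraMap F ℂ)).Monic := hMm.map _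
  have hcard : R.card = d := by
    rw [hR, aroots, ← hsp.natDegree_eq_card_roots, hMm.natDegree_map]
  have hroot : ∀ y ∈ R, y ^ n = x ^ n := by
    intro y hy
    have h1 : aeval y M = 0 := (mem_aroots.1 hy).2
    obtain ⟨W, hW⟩ := hMdvd
    have h2 : aeval y (X ^ n - C (⟨x ^ n, hxnF⟩ : F)) = 0 := by
      rw [hW, map_mul, h1, zero_mul]
    rw [map_sub, map_pow, aeval_X, aeval_C] at h2
    exact sub_eq_zero.1 h2
  set c := R.prod with hc
  have hcn : c ^ n = (x ^ d) ^ n := by
    have h1 : (R.map (fun y => y ^ n)).prod = c ^ n := by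
      rw [Multiset.prod_map_pow, Multiset.map_id']
    rw [← h1, Multiset.map_congr rfl hroot, Multiset.map_const', Multiset.prod_replicate, hcard]
    ring
  have hcF : c ∈ F := by
    have h1 := hsp.coeff_zero_eq_prod_roots_of_monic hMmap
    rw [coeff_map] at h1
    have h2 : c = (-1) ^ (M.map (algebraMap F ℂ)).natDegree * algebraMap F ℂ (M.coeff 0) := by
      rw [h1, ← mul_assoc, ← mul_pow]
      norm_num
      rfl
    rw [h2]
    exact mul_mem (pow_mem (neg_mem (one_mem _)) _) (M.coeff 0).2
  have hxd0 : x ^ d ≠ 0 := pow_ne_zero _ hx0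
  have hz : (c / x ^ d) ^ 2 = 1 := by
    apply hmu _ _ n hn
    · rw [div_pow, hcn, div_self (pow_ne_zero _ hxd0)]
    · exact div_mem (hFK hcF) (pow_mem hxK d)
  have hxdF : x ^ d ∈ F := by
    have h1 : (c / x ^ d - 1) * (c / x ^ d + 1) = 0 := by linear_combination hz
    rcases mul_eq_zero.1 h1 with h | h
    · have : x ^ d = c := by
        field_simp at h
        linear_combination -h
      rw [this]
      exact hcF
    · have : x ^ d = -c := by
        field_simp at h
        linear_combination h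
      rw [this]
      exact neg_mem hcF
  -- degrees
  set G := minpoly ℚ (x ^ d) with hG
  have hxdi : IsIntegral ℚ (x ^ d) := hxi.pow d
  have hfdK : FiniteDimensional ℚ K := adjoin.finiteDimensional hxi
  have hfdF : FiniteDimensional ℚ F := adjoin.finiteDimensional (hxi.pow n)
  have hGle : G.natDegree ≤ Module.finrank ℚ F := by
    rw [← adjoin.finrank hxdi]
    apply finrank_le_of_le_right
    rw [adjoin_simple_le_iff]
    exact hxdF
  have htower : Module.finrank ℚ F * d = Q.natDegree := by
    have h1 : Module.finrank F F⟮x⟯ = d := adjoin.finrank hxF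
    have h2 : F⟮x⟯.restrictScalars ℚ = K := by
      refine (IntermediateField.restrictScalars_adjoin ℚ F ({x} : Set ℂ)).trans ?_
      apply le_antisymm
      · rw [adjoin_le_iff]
        rintro y (hy | hy)
        · exact hFK hy
        · rw [Set.mem_singleton_iff.1 hy]
          exact hxK
      · exact adjoin.mono ℚ _ _ Set.subset_union_right
    have h3 : Module.finrank ℚ (F⟮x⟯.restrictScalars ℚ) = Q.natDegree := by
      rw [h2, hK, adjoin.finrank hxi, hmin]
    rw [← h1, ← h3]
    exact Module.finrank_mul_finrank ℚ F F⟮x⟯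
  have hexp : Q ∣ expand ℚ d G := by
    rw [← hmin]
    apply minpoly.dvd
    rw [expand_aeval]
    exact minpoly.aeval ℚ (x ^ d)
  have hGm : G.Monic := minpoly.monic hxdi
  have hEm : (expand ℚ d G).Monic := hGm.expand hd0
  have hQE : Q = expand ℚ d G := by
    refine (eq_of_monic_of_dvd_of_natDegree_le hQm hEm hexp ?_).symm ▸ rfl
    rw [natDegree_expand, ← htower]
    exact Nat.mul_le_mul_right d hGle
  have hd1 : d = 1 := by
    apply hd
    intro i hi
    by_contra hcon
    have h1 : Q.coeff i = 0 := by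
      rw [hQE, coeff_expand hd0, if_neg hcon]
    rw [hQ, coeff_map] at h1
    exact hi (by simpa using h1)
  apply le_antisymm hFK
  rw [hK, adjoin_simple_le_iff]
  rw [hd1, pow_one] at hxdF
  exact hxdF

end Pool.Agent.K3h7.WF
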