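import Pool.Agent.K3h7.WF.Big
import Pool.Agent.Y676.WP.OneTwo

/-!
# The exceptional pairs
-/

set_option autoImplicit false
set_option linter.unusedSectionVars false

namespace Pool.Agent.K3h7.WF

open Polynomial Pool.Agent.R80.WF IntermediateField NumberField

section mu

variable {K : Type*} [Field K] [NumberField K]

theorem sub_one_mem {I : Ideal (𝓞 K)} {m n : ℕ} (hmn : Nat.Coprime m n) {τ : 𝓞 K}
    (h1 : τ ^ m = 1) (h2 : τ ^ n - 1 ∈ I) : τ - 1 ∈ I := by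
  have e1 : (Ideal.Quotient.mk I τ) ^ m = 1 := by rw [← map_pow, h1, map_one]
  have e2 : (Ideal.Quotient.mk I τ) ^ n = 1 := by
    rw [← Ideal.Quotient.eq_zero_iff_mem, map_sub, map_pow, map_one, sub_eq_zero] at h2
    exact h2
  have e3 := pow_gcd_eq_one.2 ⟨e1, e2⟩
  rw [Nat.Coprime.gcd_eq_one hmn, pow_one] at e3
  rw [← Ideal.Quotient.eq_zero_iff_mem, map_sub, map_one, e3, sub_self]

theorem pow_eq_one_of_pair {I J : Ideal (𝓞 K)} (hI : I.IsMaximal) (hJ : J.IsMaximal) {p q : ℕ}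
    (hp : p.Prime) (hq : q.Prime) (hIp : I.absNorm = p) (hJq : J.absNorm = q)
    (hpI : ((p : ℕ) : 𝓞 K) ∈ I) (hqJ : ((q : ℕ) : 𝓞 K) ∈ J) (hpq : p ≠ q) (hd : ¬ p ∣ q - 1)
    {η : 𝓞 K} {n : ℕ} (hn : 1 ≤ n) (hη : η ^ n = 1) : η ^ (p - 1) = 1 := by
  by_contra hne
  have h1 := pow_sub_one_mem hI hp hIp hn hη
  have hθn : (η ^ (p - 1)) ^ n = 1 := by
    rw [← pow_mul, mul_comm, pow_mul, hη, one_pow]
  obtain ⟨k, hk1, hk2⟩ := prime_order hI hp hpI hn hθn h1 hne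
  have h2 := pow_sub_one_mem hJ hq hJq hp.one_lt.le hk1
  have h3 := sub_one_mem ((Nat.Prime.coprime_iff_not_dvd hp).2 hd) hk1 h2
  obtain ⟨l, hl1, hl2⟩ := prime_order hJ hq hqJ hp.one_lt.le hk1 h3 hk2
  apply hl2
  have h4 : (((η ^ (p - 1)) ^ k) ^ l) ^ p = 1 := by
    rw [← pow_mul, mul_comm, pow_mul, hk1, one_pow]
  have h5 := pow_gcd_eq_one.2 ⟨h4, hl1⟩
  rwa [Nat.gcd_comm, ((Nat.coprime_primes hq hp).2 hpq.symm).gcd_eq_one, pow_one] at h5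

theorem mu_pair {α β : 𝓞 K} {N M : ℤ} (hN : Algebra.norm ℤ α = N) (hM : Algebra.norm ℤ β = M)
    {p q : ℕ} (hp : p.Prime) (hq : q.Prime) (h1 : (p : ℤ) ∣ N) (h2 : ¬ ((p : ℤ) ^ 2) ∣ N)
    (h3 : (q : ℤ) ∣ M) (h4 : ¬ ((q : ℤ) ^ 2) ∣ M) (hpq : p ≠ q) (hd1 : ¬ p ∣ q - 1)
    (hd2 : ¬ q ∣ p - 1) (hg : Nat.gcd (p - 1) (q - 1) = 2) {z : K} {n : ℕ} (hn : 1 ≤ n)
    (hz : z ^ n = 1) : z ^ 2 = 1 := by
  obtain ⟨I, hI1, hI2, hI3⟩ := exists_prime hN hp h1 h2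
  obtain ⟨J, hJ1, hJ2, hJ3⟩ := exists_prime hM hq h3 h4
  have hzi : IsIntegral ℤ z := by
    apply IsIntegral.of_pow (by omega : 0 < n)
    rw [hz]
    exact isIntegral_one
  set η : 𝓞 K := ⟨z, hzi⟩ with hη
  have hηz : algebraMap (𝓞 K) K η = z := rfl
  have hinj : Function.Injective (algebraMap (𝓞 K) K) := FaithfulSMul.algebraMap_injective _ _
  have hηn : η ^ n = 1 := by
    apply hinj
    rw [map_pow, map_one, hηz, hz]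
  have e1 := pow_eq_one_of_pair hI1 hJ1 hp hq hI2 hJ2 hI3 hJ3 hpq hd1 hn hηn
  have e2 := pow_eq_one_of_pair hJ1 hI1 hq hp hJ2 hI2 hJ3 hI3 hpq.symm hd2 hn hηn
  have e3 := pow_gcd_eq_one.2 ⟨e1, e2⟩
  rw [hg] at e3
  have h5 := congrArg (algebraMap (𝓞 K) K) e3
  rw [map_pow, map_one, hηz] at h5
  exact h5

end mu

/-- roots of unity in `ℚ(x)` from two values of the minimal polynomial -/
theorem mu_of_pair {P : ℤ[X]} (hm : P.Monic) (hirr : Irreducible (P.map (Int.castRingHom ℚ)))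
    {p q : ℕ} (hp : p.Prime) (hq : q.Prime) (h1 : (p : ℤ) ∣ P.eval 1)
    (h2 : ¬ ((p : ℤ) ^ 2) ∣ P.eval 1) (h3 : (q : ℤ) ∣ P.eval (-1))
    (h4 : ¬ ((q : ℤ) ^ 2) ∣ P.eval (-1)) (hpq : p ≠ q) (hd1 : ¬ p ∣ q - 1)
    (hd2 : ¬ q ∣ p - 1) (hg : Nat.gcd (p - 1) (q - 1) = 2) {x : ℂ} (hx : aeval x P = 0) :
    ∀ z ∈ adjoin ℚ {x}, ∀ n : ℕ, 1 ≤ n → z ^ n = 1 → z ^ 2 = 1 := by
  intro z hz n hn hzn
  have hmin := minpoly_eq hm hirr hx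
  have hxi := isIntegral_Q hm hx
  have hxZ : IsIntegral ℤ x := ⟨P, hm, by rwa [← aeval_def]⟩
  have hfd : FiniteDimensional ℚ ℚ⟮x⟯ := adjoin.finiteDimensional hxi
  have hnf : NumberField ℚ⟮x⟯ := { to_charZero := inferInstance, to_finiteDimensional := hfd }
  set ξ : ℚ⟮x⟯ := AdjoinSimple.gen ℚ x with hξ
  have hξx : algebraMap ℚ⟮x⟯ ℂ ξ = x := AdjoinSimple.algebraMap_gen ℚ x
  have hξi : IsIntegral ℤ ξ := by
    rw [← isIntegral_algebraMap_iff (B := ℂ) (FaithfulSMul.algebraMap_injective ℚ⟮x⟯ ℂ), hξx]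
    exact hxZ
  obtain ⟨ξ', hξ'⟩ : ∃ ξ' : 𝓞 ℚ⟮x⟯, algebraMap (𝓞 ℚ⟮x⟯) ℚ⟮x⟯ ξ' = ξ := ⟨⟨ξ, hξi⟩, rfl⟩
  have hN : ∀ a : ℤ, Algebra.norm ℤ ((a : 𝓞 ℚ⟮x⟯) - ξ') = P.eval a := by
    intro a
    have hαc : algebraMap (𝓞 ℚ⟮x⟯) ℚ⟮x⟯ ((a : 𝓞 ℚ⟮x⟯) - ξ') = (a : ℚ⟮x⟯) - ξ := by
      rw [map_sub, map_intCast, hξ']
    have h1 : Algebra.norm ℚ ((a : ℚ⟮x⟯) - ξ) = ((P.eval a : ℤ) : ℚ) := by
      have h2 := norm_sub_gen (adjoin.powerBasis hxi) a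
      rw [adjoin.powerBasis_gen, minpoly_gen, hmin, map_intCast] at h2
      rw [hξ]
      refine h2.trans ?_
      have := eval_intCast_map (Int.castRingHom ℚ) P a
      rw [this]
      simp
    have h3 := Algebra.coe_norm_int ((a : 𝓞 ℚ⟮x⟯) - ξ')
    rw [← hαc] at h1
    have : ((Algebra.norm ℤ ((a : 𝓞 ℚ⟮x⟯) - ξ') : ℤ) : ℚ) = ((P.eval a : ℤ) : ℚ) := by
      rw [h3]
      exact h1
    exact_mod_cast this
  have h1' := mu_pair (hN 1) (hN (-1)) hp hq h1 h2 h3 h4 hpq hd1 hd2 hg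
    (z := (⟨z, hz⟩ : ℚ⟮x⟯)) hn (by
      apply Subtype.ext
      simpa using hzn)
  have h2' := congrArg (algebraMap ℚ⟮x⟯ ℂ) h1'
  rw [map_pow, map_one] at h2'
  exact h2'

end Pool.Agent.K3h7.WF
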