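import Pool.Agent.K3h7.WF.Exc

/-!
# The exceptional pairs: irreducibility modulo 3 and assembly
-/

set_option autoImplicit false

namespace Pool.Agent.K3h7.WF

open Polynomial Pool.Agent.R80.WF

/-- Horner evaluation of an integer list in a `ZMod 3`-algebra -/
def evA {R : Type*} [Ring R] (M : R) : List ℤ → R
  | [] => 0
  | c :: L => (c : R) + M * evA M L

/-- the polynomial with given coefficients, lowest first -/
noncomputable def polyL : List ℤ → ℤ[X]
  | [] => 0
  | c :: L => C c + X * polyL L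

theorem aeval_polyL {R : Type*} [Ring R] [Algebra (ZMod 3) R] (M : R) (L : List ℤ) :
    aeval M ((polyL L).map (Int.castRingHom (ZMod 3))) = evA M L := by
  induction L with
  | nil => simp [polyL, evA]
  | cons c L ih =>
    rw [polyL, evA, Polynomial.map_add, Polynomial.map_mul, map_C, map_X, map_add, map_mul,
      aeval_C, aeval_X, ih]
    congr 1
    rw [eq_intCast, map_intCast]

/-- the companion matrix in degree 2 -/
def cm2 (b c : ZMod 3) : Matrix (Fin 2) (Fin 2) (ZMod 3) := !![0, -c; 1, -b]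

/-- the companion matrix in degree 3 -/
def cm3 (b c d : ZMod 3) : Matrix (Fin 3) (Fin 3) (ZMod 3) := !![0, 0, -d; 1, 0, -c; 0, 1, -b]

theorem cm2_eq : ∀ b c : ZMod 3, (cm2 b c) ^ 2 + b • cm2 b c + c • 1 = 0 := by
  decide +kernel

theorem cm3_eq : ∀ b c d : ZMod 3,
    (cm3 b c d) ^ 3 + b • (cm3 b c d) ^ 2 + c • cm3 b c d + d • 1 = 0 := by
  decide +kernel

/-- the test for irreducibility modulo 3 -/
def Irr3 (n : ℕ) (L : List ℤ) : Prop :=
  (∀ r : ZMod 3, evA r L ≠ 0) ∧ (4 ≤ n → ∀ b c : ZMod 3, evA (cm2 b c) L ≠ 0) ∧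
  (6 ≤ n → ∀ b c d : ZMod 3, evA (cm3 b c d) L ≠ 0)

instance (n : ℕ) (L : List ℤ) : Decidable (Irr3 n L) := by
  unfold Irr3
  infer_instance

theorem irreducible_polyL {n : ℕ} {L : List ℤ} (hn : 1 ≤ n) (hn7 : n ≤ 7)
    (hm : (polyL L).Monic) (hd : (polyL L).natDegree = n) (h : Irr3 n L) :
    Irreducible (polyL L) := by
  have : Fact (Nat.Prime 3) := ⟨Nat.prime_three⟩
  obtain ⟨h1, h2, h3⟩ := h
  apply hm.irreducible_of_irreducible_map (Int.castRingHom (ZMod 3))
  set p := (polyL L).map (Int.castRingHom (ZMod 3)) with hp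
  have hpm : p.Monic := hm.map _
  have hpd : p.natDegree = n := by rw [hp, hm.natDegree_map, hd]
  rw [hpm.irreducible_iff_natDegree']
  refine ⟨?_, ?_⟩
  · intro h
    rw [h, natDegree_one] at hpd
    omega
  intro u v hu hv huv hmem
  rw [Finset.mem_Ioc, hpd] at hmem
  obtain ⟨k1, k2⟩ := hmem
  have hdiv : ∀ {R : Type} [Ring R] [Algebra (ZMod 3) R] (M : R), aeval M v = 0 →
      evA M L = 0 := by
    intro R _ _ M hM
    rw [← aeval_polyL, ← hp, ← huv, map_mul, hM, mul_zero]
  have hk : v.natDegree = 1 ∨ v.natDegree = 2 ∨ v.natDegree = 3 := by omega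
  rcases hk with hk | hk | hk
  · refine h1 (-v.coeff 0) (hdiv _ ?_)
    rw [hv.as_sum, hk]
    simp
  · refine h2 (by omega) (v.coeff 1) (v.coeff 0) (hdiv _ ?_)
    have h4 := cm2_eq (v.coeff 1) (v.coeff 0)
    rw [hv.as_sum, hk]
    simp only [Finset.sum_range_succ, Finset.sum_range_zero, zero_add, pow_zero, mul_one, pow_one,
      map_add, map_mul, map_pow, aeval_X, aeval_C, Algebra.algebraMap_eq_smul_one, coeff_add,
      coeff_C_mul, coeff_X_pow, coeff_C, coeff_X]
    norm_num
    rw [← h4]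
    abel
  · refine h3 (by omega) (v.coeff 2) (v.coeff 1) (v.coeff 0) (hdiv _ ?_)
    have h4 := cm3_eq (v.coeff 2) (v.coeff 1) (v.coeff 0)
    rw [hv.as_sum, hk]
    simp only [Finset.sum_range_succ, Finset.sum_range_zero, zero_add, pow_zero, mul_one, pow_one,
      map_add, map_mul, map_pow, aeval_X, aeval_C, Algebra.algebraMap_eq_smul_one, coeff_add,
      coeff_C_mul, coeff_X_pow, coeff_C, coeff_X]
    norm_num
    rw [← h4]
    abel

end Pool.Agent.K3h7.WF
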