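import Pool.Agent.K3h7.WF.SmallTbl

/-!
# A certificate for the absence of small roots
-/

set_option autoImplicit false

namespace Pool.Agent.K3h7.WF

open Polynomial Pool.Agent.R80.WF

/-- evaluation of a list -/
noncomputable def ev (z : ℂ) : List ℤ → ℂ
  | [] => 0
  | c :: L => (c : ℂ) + z * ev z L

/-- addition -/
def addL : List ℤ → List ℤ → List ℤ
  | [], M => M
  | a :: L, [] => a :: L
  | a :: L, b :: M => (a + b) :: addL L M

/-- multiplication -/
def mulL : List ℤ → List ℤ → List ℤ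
  | [], _ => []
  | a :: L, M => addL (M.map (fun b => a * b)) (0 :: mulL L M)

/-- scaled weighted norm, with radius `17/24` and scale `10^6` -/
def nm : List ℤ → ℕ
  | [] => 0
  | c :: L => 1000000 * c.natAbs + (17 * nm L + 23) / 24

theorem ev_addL (z : ℂ) (L M : List ℤ) : ev z (addL L M) = ev z L + ev z M := by
  induction L generalizing M with
  | nil => simp [addL, ev]
  | cons a L ih =>
    cases M with
    | nil => simp [addL, ev]
    | cons b M =>
      rw [addL, ev, ih, ev, ev]
      push_cast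
      ring

theorem ev_map (z : ℂ) (a : ℤ) (M : List ℤ) : ev z (M.map (fun b => a * b)) = a * ev z M := by
  induction M with
  | nil => simp [ev]
  | cons b M ih =>
    rw [List.map_cons, ev, ih, ev]
    push_cast
    ring

theorem ev_mulL (z : ℂ) (L M : List ℤ) : ev z (mulL L M) = ev z L * ev z M := by
  induction L with
  | nil => simp [mulL, ev]
  | cons a L ih =>
    rw [mulL, ev_addL, ev_map, ev, ih, ev]
    push_cast
    ring

theorem ev_le {z : ℂ} (hz : ‖z‖ ≤ 17 / 24) (L : List ℤ) : 1000000 * ‖ev z L‖ ≤ (nm L : ℝ) := by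
  induction L with
  | nil => simp [ev, nm]
  | cons c L ih =>
    rw [ev, nm]
    have h1 : ‖(c : ℂ) + z * ev z L‖ ≤ (c.natAbs : ℝ) + 17 / 24 * ‖ev z L‖ := by
      refine (norm_add_le _ _).trans ?_
      rw [norm_mul]
      have h2 : ‖(c : ℂ)‖ = (c.natAbs : ℝ) := by
        rw [Complex.norm_intCast, Nat.cast_natAbs, Int.cast_abs]
      rw [h2]
      gcongr
    have h3 : (17 * (nm L : ℝ)) / 24 ≤ (((17 * nm L + 23) / 24 : ℕ) : ℝ) := by
      have h4 : 17 * nm L ≤ 24 * ((17 * nm L + 23) / 24) := by omega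
      have h5 : (17 * (nm L : ℝ)) ≤ 24 * (((17 * nm L + 23) / 24 : ℕ) : ℝ) := by exact_mod_cast h4
      linarith
    push_cast at h3 ⊢
    linarith

/-- the certificate: `A B` is close to `1` -/
def Cert (A B : List ℤ) : Prop := nm (addL (mulL A B) [-1]) * 25 + nm B < 25000000

instance (A B : List ℤ) : Decidable (Cert A B) := by
  unfold Cert
  infer_instance

theorem cert_ne {A B : List ℤ} (h : Cert A B) {z e : ℂ} (hz : ‖z‖ ≤ 17 / 24) (he : ‖e‖ ≤ 1 / 25) :
    ev z A + e ≠ 0 := by
  intro h0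
  have h1 : ev z (addL (mulL A B) [-1]) = -e * ev z B - 1 := by
    rw [ev_addL, ev_mulL]
    have : ev z [-1] = -1 := by simp [ev]
    rw [this]
    linear_combination ev z B * h0
  have h2 : 1 ≤ ‖ev z (addL (mulL A B) [-1])‖ + ‖e‖ * ‖ev z B‖ := by
    have h3 : (1 : ℂ) = -(ev z (addL (mulL A B) [-1])) - e * ev z B := by
      rw [h1]
      ring
    have h4 : ‖(1 : ℂ)‖ ≤ ‖-(ev z (addL (mulL A B) [-1]))‖ + ‖e * ev z B‖ := by
      conv_lhs => rw [h3]
      exact norm_sub_le _ _
    rwa [norm_one, norm_neg, norm_mul] at h4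
  have h3 := ev_le hz (addL (mulL A B) [-1])
  have h4 := ev_le hz B
  have h5 : (nm (addL (mulL A B) [-1]) : ℝ) * 25 + nm B < 25000000 := by exact_mod_cast h
  have h6 : ‖e‖ * ‖ev z B‖ ≤ 1 / 25 * ‖ev z B‖ := by gcongr
  linarith

theorem ev_eq_sum (z : ℂ) (L : List ℤ) : ev z L =
    ∑ i ∈ Finset.range L.length, ((L.getD i 0 : ℤ) : ℂ) * z ^ i := by
  induction L with
  | nil => simp [ev]
  | cons c L ih =>
    rw [ev, ih, List.length_cons, Finset.sum_range_succ', List.getD_cons_zero, Finset.mul_sum]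
    rw [add_comm]
    congr 1
    · refine Finset.sum_congr rfl fun i _ => ?_
      rw [List.getD_cons_succ]
      ring
    · simp

end Pool.Agent.K3h7.WF
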