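import Pool.Agent.K3h7.WF.Asm2

/-!
# Location of the roots from sign changes of the trace polynomial
-/

set_option autoImplicit false

namespace Pool.Agent.K3h7.WF

open Polynomial Pool.Agent.R80.WF

/-- `xⁿ + (2/x)ⁿ` as a polynomial in `y = x + 2/x` -/
def Tr {R : Type*} [CommRing R] (y : R) : ℕ → R
  | 0 => 2
  | 1 => y
  | n + 2 => y * Tr y (n + 1) - 2 * Tr y n

theorem Tr_eq {R : Type*} [CommRing R] {x x' : R} (h : x * x' = 2) (n : ℕ) :
    Tr (x + x') n = x ^ n + x' ^ n := by
  induction n using Nat.strong_induction_on with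
  | _ n ih =>
    match n with
    | 0 => simp [Tr]; norm_num
    | 1 => simp [Tr]
    | n + 2 =>
      rw [Tr, ih (n + 1) (by omega), ih n (by omega), ← h]
      ring

theorem map_Tr {R S : Type*} [CommRing R] [CommRing S] (φ : R →+* S) (y : R) (n : ℕ) :
    φ (Tr y n) = Tr (φ y) n := by
  induction n using Nat.strong_induction_on with
  | _ n ih =>
    match n with
    | 0 => exact map_ofNat φ 2
    | 1 => simp [Tr]
    | n + 2 =>
      rw [Tr, Tr, map_sub, map_mul, map_mul, ih (n + 1) (by omega), ih n (by omega), map_ofNat]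

/-- the value of the trace polynomial -/
def Hv {R : Type*} [CommRing R] (g : ℕ) (a : ℕ → ℤ) (y : R) : R :=
  ∑ i ∈ Finset.range g, (a i : R) * Tr y (g - i) + (a g : R)

theorem map_Hv {R S : Type*} [CommRing R] [CommRing S] (φ : R →+* S) (g : ℕ) (a : ℕ → ℤ) (y : R) :
    φ (Hv g a y) = Hv g a (φ y) := by
  unfold Hv
  simp [map_sum, map_Tr]

theorem aeval_PP_Hv {g : ℕ} (a : ℕ → ℤ) {x x' : ℂ} (h : x * x' = 2) :
    aeval x (PP 2 g a) = x ^ g * Hv g a (x + x') := by
  have h1 : aeval x (PP 2 g a) = ∑ i ∈ Finset.range g, (a i : ℂ) *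
      (x ^ (2 * g - i) + 2 ^ (g - i) * x ^ i) + (a g : ℂ) * x ^ g := by
    have e2 : (aeval x) (2 : ℤ[X]) = (2 : ℂ) := map_ofNat _ 2
    simp [PP, map_sum, e2]
  rw [h1, Hv, mul_add, Finset.mul_sum]
  congr 1
  · refine Finset.sum_congr rfl fun i hi => ?_
    have hi' := (Finset.mem_range.1 hi).le
    rw [Tr_eq h, ← h]
    have e1 : x ^ (2 * g - i) = x ^ g * x ^ (g - i) := by
      rw [← pow_add]
      congr 1
      omega
    have e2 : x ^ g = x ^ (g - i) * x ^ i := by
      rw [← pow_add]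
      congr 1
      omega
    rw [e1, mul_pow]
    linear_combination (-(a i : ℂ) * x' ^ (g - i)) * e2
  · ring

/-- the trace polynomial -/
noncomputable def HP (g : ℕ) (a : ℕ → ℤ) : ℤ[X] := Hv g a (X : ℤ[X])

theorem aeval_HP {R : Type*} [CommRing R] (g : ℕ) (a : ℕ → ℤ) (y : R) :
    aeval y (HP g a) = Hv g a y := by
  have := map_Hv (aeval y : ℤ[X] →ₐ[ℤ] R).toRingHom g a X
  simpa [HP] using this

theorem Tr_deg (n : ℕ) : (Tr (X : ℤ[X]) n).natDegree ≤ n ∧ (1 ≤ n → (Tr (X : ℤ[X]) n).coeff n = 1) := by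
  induction n using Nat.strong_induction_on with
  | _ n ih =>
    match n with
    | 0 =>
      refine ⟨?_, by omega⟩
      rw [Tr]
      exact (natDegree_ofNat 2).le
    | 1 =>
      rw [Tr]
      exact ⟨natDegree_X_le, fun _ => coeff_X_one⟩
    | n + 2 =>
      obtain ⟨h1, h2⟩ := ih (n + 1) (by omega)
      obtain ⟨h3, -⟩ := ih n (by omega)
      have h4 : (2 * Tr (X : ℤ[X]) n).natDegree ≤ n := by
        refine natDegree_mul_le.trans ?_
        rw [natDegree_ofNat]
        omega
      rw [Tr]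
      constructor
      · refine (natDegree_sub_le _ _).trans (max_le ?_ (by omega))
        refine natDegree_mul_le.trans ?_
        have := natDegree_X_le (R := ℤ)
        omega
      · intro _
        rw [coeff_sub, coeff_X_mul, h2 (by omega), coeff_eq_zero_of_natDegree_lt (by omega)]
        norm_num

theorem HP_deg {g : ℕ} {a : ℕ → ℤ} (hg : 1 ≤ g) (ha0 : a 0 = 1) :
    (HP g a).natDegree = g ∧ (HP g a).Monic := by
  have hle : (HP g a).natDegree ≤ g := by
    unfold HP Hv
    refine natDegree_add_le_of_degree_le ?_ ?_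
    · apply natDegree_sum_le_of_forall_le
      intro i hi
      refine natDegree_mul_le.trans ?_
      have h1 := (Tr_deg (g - i)).1
      have h2 : ((a i : ℤ) : ℤ[X]).natDegree = 0 := natDegree_intCast _
      omega
    · have h2 : ((a g : ℤ) : ℤ[X]).natDegree = 0 := natDegree_intCast _
      omega
  have hc : (HP g a).coeff g = 1 := by
    unfold HP Hv
    rw [coeff_add, finsetSum_coeff]
    have h1 : ((a g : ℤ) : ℤ[X]).coeff g = 0 := by
      apply coeff_eq_zero_of_natDegree_lt
      rw [natDegree_intCast]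
      omega
    rw [h1, add_zero, Finset.sum_eq_single 0]
    · rw [ha0, Int.cast_one, one_mul]
      exact (Tr_deg g).2 hg
    · intro i hi hi0
      apply coeff_eq_zero_of_natDegree_lt
      have hi' := Finset.mem_range.1 hi
      refine lt_of_le_of_lt natDegree_mul_le ?_
      have h1 := (Tr_deg (g - i)).1
      have h2 : ((a i : ℤ) : ℤ[X]).natDegree = 0 := natDegree_intCast _
      omega
    · intro h
      exact absurd (Finset.mem_range.2 (by omega)) h
  have hd : (HP g a).natDegree = g :=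
    natDegree_eq_of_le_of_coeff_ne_zero hle (by rw [hc]; norm_num)
  refine ⟨hd, ?_⟩
  rw [Monic, leadingCoeff, hd, hc]

/-- location of the roots from sign changes -/
theorem real_of_sign {g : ℕ} {a : ℕ → ℤ} (hg : 1 ≤ g) (ha0 : a 0 = 1) {y : ℕ → ℝ}
    (hy : ∀ j, j < g → y (j + 1) < y j) (h0 : y 0 ^ 2 ≤ 8) (h1 : y g ^ 2 ≤ 8)
    (hs : ∀ j, j ≤ g → 0 < (-1) ^ j * Hv g a (y j)) {z : ℂ} (hz : Hv g a z = 0) :
    ∃ r : ℝ, r ^ 2 < 8 ∧ z = r := by
  have hcont : Continuous fun t : ℝ => Hv g a t := by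
    have : (fun t : ℝ => Hv g a t) = fun t : ℝ => aeval t (HP g a) := by
      ext t
      rw [aeval_HP]
    rw [this]
    exact (HP g a).continuous_aeval
  have hex : ∀ j : Fin g, ∃ r : ℝ, y (j + 1) < r ∧ r < y j ∧ Hv g a r = 0 := by
    intro j
    have e1 := hs j j.2.le
    have e2 := hs (j + 1) j.2
    have hlt := hy j j.2
    rw [pow_succ] at e2
    rcases neg_one_pow_eq_or ℝ (j : ℕ) with h | h
    · rw [h] at e1 e2
      obtain ⟨r, hr, hr2⟩ := intermediate_value_Ioo hlt.le hcont.continuousOn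
        (show (0 : ℝ) ∈ Set.Ioo _ _ from ⟨by linarith, by linarith⟩)
      exact ⟨r, hr.1, hr.2, hr2⟩
    · rw [h] at e1 e2
      obtain ⟨r, hr, hr2⟩ := intermediate_value_Ioo' hlt.le hcont.continuousOn
        (show (0 : ℝ) ∈ Set.Ioo _ _ from ⟨by linarith, by linarith⟩)
      exact ⟨r, hr.1, hr.2, hr2⟩
  choose r hr1 hr2 hr3 using hex
  have hanti : ∀ j k, j ≤ k → k ≤ g → y k ≤ y j := by
    intro j k hjk
    induction k, hjk using Nat.le_induction with
    | base => intro _; exact le_rfl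
    | succ k hk ih =>
      intro hkg
      exact (hy k (by omega)).le.trans (ih (by omega))
  have hlt : ∀ j k : Fin g, j < k → r k < r j := by
    intro j k hjk
    have e1 := hanti (j + 1) k (by exact hjk) k.2.le
    linarith [hr1 j, hr2 k]
  have hinj : Function.Injective r := by
    intro j k h
    rcases lt_trichotomy j k with h' | h' | h'
    · exact absurd h (hlt j k h').ne'
    · exact h'
    · exact absurd h (hlt k j h').ne
  have hbd : ∀ j, r j ^ 2 < 8 := by
    intro j
    have e1 : r j < y 0 := lt_of_lt_of_le (hr2 j) (hanti 0 j (by omega) j.2.le)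
    have e2 : y g < r j := lt_of_le_of_lt (hanti (j + 1) g j.2 le_rfl) (hr1 j)
    rcases le_total 0 (r j) with h | h
    · nlinarith
    · nlinarith
  by_contra hcon
  push Not at hcon
  obtain ⟨hd, hm⟩ := HP_deg hg ha0
  set q : ℂ[X] := (HP g a).map (algebraMap ℤ ℂ) with hq
  have hqm : q.Monic := hm.map _
  have hqd : q.natDegree = g := by
    rw [hq, hm.natDegree_map, hd]
  classical
  have hT : insert z (Finset.univ.image (fun j => ((r j : ℝ) : ℂ))) ⊆ q.roots.toFinset := by
    intro w hw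
    rw [Multiset.mem_toFinset, mem_roots hqm.ne_zero, IsRoot.def, hq, eval_map_algebraMap, aeval_HP]
    rcases Finset.mem_insert.1 hw with h | h
    · rw [h]
      exact hz
    · obtain ⟨j, -, rfl⟩ := Finset.mem_image.1 h
      have e1 := map_Hv Complex.ofRealHom g a (r j)
      rw [hr3 j, map_zero] at e1
      exact e1.symm
  have h2 := Finset.card_le_card hT
  rw [Finset.card_insert_of_notMem, Finset.card_image_of_injective, Finset.card_univ,
    Fintype.card_fin] at h2
  · have h3 := Multiset.toFinset_card_le q.roots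
    have h4 := q.card_roots'
    omega
  · intro j k h
    exact hinj (Complex.ofReal_injective h)
  · intro h
    obtain ⟨j, -, hj⟩ := Finset.mem_image.1 h
    exact hcon (r j) (hbd j) hj.symm

theorem normSq_of_real {x : ℂ} (hx : x ≠ 0) {r : ℝ} (hr : r ^ 2 < 8) (h : x + 2 / x = r) :
    Complex.normSq x = 2 := by
  have h1 : x ^ 2 - r * x + 2 = 0 := by
    rw [← h]
    field_simp
    ring
  have hre := congrArg Complex.re h1
  have him := congrArg Complex.im h1
  simp only [sq, Complex.add_re, Complex.sub_re, Complex.mul_re, Complex.add_im, Complex.sub_im,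
    Complex.mul_im, Complex.ofReal_re, Complex.ofReal_im, Complex.re_ofNat, Complex.im_ofNat,
    Complex.zero_re, Complex.zero_im] at hre him
  have h2 : x.im * (2 * x.re - r) = 0 := by linarith
  rw [Complex.normSq_apply]
  rcases mul_eq_zero.1 h2 with h3 | h3
  · rw [h3] at hre
    nlinarith [sq_nonneg (2 * x.re - r)]
  · have : r = 2 * x.re := by linarith
    rw [this] at hre
    nlinarith

/-- roots of the Weil polynomial -/
theorem root_of_sign {g : ℕ} {a : ℕ → ℤ} (hg : 1 ≤ g) (ha0 : a 0 = 1) {y : ℕ → ℝ}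
    (hy : ∀ j, j < g → y (j + 1) < y j) (h0 : y 0 ^ 2 ≤ 8) (h1 : y g ^ 2 ≤ 8)
    (hs : ∀ j, j ≤ g → 0 < (-1) ^ j * Hv g a (y j)) (x : ℂ) (hx : aeval x (PP 2 g a) = 0) :
    Complex.normSq x = 2 ∧ x ^ 2 ≠ 2 := by
  have hx0 : x ≠ 0 := by
    rintro rfl
    have h1 : (PP 2 g a).coeff 0 = 2 ^ g := by
      rw [coeff_PP, if_pos (by omega), ha0]
      simp
    have h2 : aeval (0 : ℂ) (PP 2 g a) = (((PP 2 g a).coeff 0 : ℤ) : ℂ) := by
      rw [← coeff_zero_eq_aeval_zero']
      rfl
    rw [h2, h1] at hx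
    push_cast at hx
    exact pow_ne_zero g two_ne_zero hx
  have hxx : x * (2 / x) = 2 := mul_div_cancel₀ _ hx0
  rw [aeval_PP_Hv a hxx] at hx
  have hz := (mul_eq_zero.1 hx).resolve_left (pow_ne_zero _ hx0)
  obtain ⟨r, hr, hr2⟩ := real_of_sign hg ha0 hy h0 h1 hs hz
  refine ⟨normSq_of_real hx0 hr hr2, ?_⟩
  intro h
  have e1 : (x + 2 / x) ^ 2 = 8 := by
    have : (2 / x : ℂ) = x := by
      rw [div_eq_iff hx0, ← sq, h]
    rw [this]
    linear_combination 4 * h
  rw [hr2] at e1
  have e2 : r ^ 2 = 8 := by exact_mod_cast e1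
  linarith

end Pool.Agent.K3h7.WF
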