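import Pool.Agent.K3h7.WF.Sign

/-!
# A decidable certificate for small `g`
-/

set_option autoImplicit false

namespace Pool.Agent.K3h7.WF

open Polynomial Pool.Agent.R80.WF

/-- binomial coefficients modulo 3 by Lucas' theorem -/
def lc (g j : ℕ) : ℕ :=
  Nat.choose (g % 3) (j % 3) * (Nat.choose (g / 3 % 3) (j / 3 % 3) * Nat.choose (g / 9) (j / 9))

theorem lc_eq (g j : ℕ) : ((Nat.choose g j : ℕ) : ZMod 3) = ((lc g j : ℕ) : ZMod 3) := by
  have : Fact (Nat.Prime 3) := ⟨Nat.prime_three⟩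
  have h1 := Choose.choose_modEq_choose_mod_mul_choose_div_nat (n := g) (k := j) (p := 3)
  have h2 := Choose.choose_modEq_choose_mod_mul_choose_div_nat (n := g / 3) (k := j / 3) (p := 3)
  rw [← ZMod.natCast_eq_natCast_iff] at h1 h2
  rw [Nat.div_div_eq_div_mul, Nat.div_div_eq_div_mul] at h2
  rw [h1, lc]
  push_cast at h2 ⊢
  rw [h2]

/-- the class modulo 3 of the coefficient `a i` -/
def cl (g i : ℕ) : ℤ := if i % 2 = 0 then (-1) ^ (i / 2) * (lc g (i / 2) : ℤ) else 0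

theorem cl_eq {g i : ℕ} {c : ℤ} (h : (c - cl g i) % 3 = 0) : ((c : ℤ) : ZMod 3) =
    if 2 ∣ i then (-1) ^ (i / 2) * ((g.choose (i / 2) : ℕ) : ZMod 3) else 0 := by
  have h1 : ((c - cl g i : ℤ) : ZMod 3) = 0 := by
    rw [three_dvd_iff]
    exact Int.dvd_of_emod_eq_zero h
  rw [Int.cast_sub, sub_eq_zero] at h1
  rw [h1, cl, lc_eq]
  by_cases h2 : 2 ∣ i
  · rw [if_pos (by omega), if_pos h2]
    push_cast
    rfl
  · rw [if_neg (by omega), if_neg h2]
    simp

/-- scaled value of the trace polynomial at `u / 1000` -/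
def hz (u : ℤ) : List ℤ → ℤ → ℤ → ℤ → ℤ
  | [], _, _, acc => acc
  | b :: bs, t0, t1, acc => hz u bs t1 (u * t1 - 2000000 * t0) (acc * 1000 + b * t1)

theorem hz_eq (u : ℤ) (bs : List ℤ) (m : ℕ) (t0 t1 acc : ℤ)
    (h0 : (t0 : ℝ) = 1000 ^ m * Tr ((u : ℝ) / 1000) m)
    (h1 : (t1 : ℝ) = 1000 ^ (m + 1) * Tr ((u : ℝ) / 1000) (m + 1)) :
    ((hz u bs t0 t1 acc : ℤ) : ℝ) = 1000 ^ bs.length * (acc : ℝ) + 1000 ^ (m + bs.length) *
      ∑ k ∈ Finset.range bs.length, ((bs.getD k 0 : ℤ) : ℝ) * Tr ((u : ℝ) / 1000) (m + 1 + k) := by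
  induction bs generalizing m t0 t1 acc with
  | nil => simp [hz]
  | cons b bs ih =>
    rw [hz, ih (m + 1) _ _ _ h1 ?_]
    · rw [List.length_cons, Finset.sum_range_succ', List.getD_cons_zero]
      have h2 : ∑ k ∈ Finset.range bs.length, (((b :: bs).getD (k + 1) 0 : ℤ) : ℝ) *
          Tr ((u : ℝ) / 1000) (m + 1 + (k + 1)) =
          ∑ k ∈ Finset.range bs.length, ((bs.getD k 0 : ℤ) : ℝ) *
          Tr ((u : ℝ) / 1000) (m + 1 + 1 + k) := by
        refine Finset.sum_congr rfl fun k _ => ?_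
        rw [List.getD_cons_succ]
        congr 2
        ring
      rw [h2]
      push_cast
      rw [h1]
      have e1 : m + 1 + bs.length = m + (bs.length + 1) := by ring
      rw [e1, add_zero]
      ring
    · push_cast
      rw [h0, h1, Tr]
      ring

/-- the certificate for `(2, g, f)` -/
def Chk (g f : ℕ) (A U : List ℤ) : Prop :=
  A.length = g + 1 ∧ A.getD 0 0 = 1 ∧ (∀ i < g + 1, (A.getD i 0 - cl g i) % 3 = 0) ∧
  A.getD f 0 % 2 = 1 ∧ (∀ i < g + 1, f < i → A.getD i 0 % 2 = 0) ∧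
  (∑ i ∈ Finset.range g, A.getD i 0 * (1 + 2 ^ (g - i)) + A.getD g 0) % 9 = 6 ∧
  (∀ d < 2 * g + 1, d ∣ 2 * g → (∀ i < g + 1, A.getD i 0 ≠ 0 → d ∣ i) → d = 1) ∧
  (∀ j < g, U.getD (j + 1) 0 < U.getD j 0) ∧ (U.getD 0 0) ^ 2 ≤ 8000000 ∧
  (U.getD g 0) ^ 2 ≤ 8000000 ∧
  (∀ j < g + 1, 0 < (-1) ^ j *
    hz (U.getD j 0) A.reverse.tail 2 (U.getD j 0) (A.reverse.getD 0 0))

instance (g f : ℕ) (A U : List ℤ) : Decidable (Chk g f A U) := by
  unfold Chk
  infer_instance

theorem hz_Hv {g : ℕ} {A : List ℤ} (hA : A.length = g + 1) (u : ℤ) :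
    ((hz u A.reverse.tail 2 u (A.reverse.getD 0 0) : ℤ) : ℝ) =
      1000 ^ g * Hv g (fun i => A.getD i 0) ((u : ℝ) / 1000) := by
  have hl : A.reverse.tail.length = g := by
    rw [List.length_tail, List.length_reverse, hA]
    rfl
  rw [hz_eq u _ 0 2 u _ (by simp [Tr]) (by simp [Tr]; ring), hl, zero_add, ← mul_add]
  congr 1
  unfold Hv
  rw [add_comm]
  have hrev : ∀ k, k ≤ g → A.reverse.getD k 0 = A.getD (g - k) 0 := by
    intro k hk
    rw [List.getD_eq_getElem?_getD, List.getD_eq_getElem?_getD, List.getElem?_reverse (by omega)]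
    congr 2
    omega
  congr 1
  · rw [← Finset.sum_range_reflect]
    refine Finset.sum_congr rfl fun i hi => ?_
    have hi' := Finset.mem_range.1 hi
    have e1 : A.reverse.tail.getD (g - 1 - i) 0 = A.getD i 0 := by
      have : A.reverse.tail.getD (g - 1 - i) 0 = A.reverse.getD (g - 1 - i + 1) 0 := by
        rw [List.getD_eq_getElem?_getD, List.getD_eq_getElem?_getD, List.getElem?_tail]
      rw [this, hrev _ (by omega)]
      congr 1
      omega
    have e2 : 0 + 1 + (g - 1 - i) = g - i := by omega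
    rw [e1, e2]
  · rw [hrev 0 (by omega)]
    simp

theorem small_good {g f : ℕ} {A U : List ℤ} (hg : 1 ≤ g) (hfg : f ≤ g) (h : Chk g f A U) :
    Good 2 g f := by
  obtain ⟨hA, h0, h3, hodd, heven, h6, hd, hU, hU0, hUg, hs⟩ := h
  refine good2 (a := fun i => A.getD i 0) hg hfg h0 ?_ ?_ ?_ h6 ?_ ?_
  · intro i hi
    exact cl_eq (h3 i (by omega))
  · intro h
    omega
  · intro i hi hig
    exact Int.dvd_of_emod_eq_zero (heven i (by omega) hi)
  · intro d hd1 hd2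
    exact hd d (by have := Nat.le_of_dvd (by omega) hd1; omega) hd1
      (fun i hi => hd2 i (by omega))
  · intro x hx
    refine (root_of_sign hg h0 (y := fun j => ((U.getD j 0 : ℤ) : ℝ) / 1000) ?_ ?_ ?_ ?_ x hx).1
    · intro j hj
      have : ((U.getD (j + 1) 0 : ℤ) : ℝ) < ((U.getD j 0 : ℤ) : ℝ) := by exact_mod_cast hU j hj
      linarith
    · have : ((U.getD 0 0 : ℤ) : ℝ) ^ 2 ≤ 8000000 := by exact_mod_cast hU0
      rw [div_pow]
      linarith
    · have : ((U.getD g 0 : ℤ) : ℝ) ^ 2 ≤ 8000000 := by exact_mod_cast hUg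
      rw [div_pow]
      linarith
    · intro j hj
      have h1 := hs j (by omega)
      have h2 : (0 : ℝ) < (-1) ^ j *
          ((hz (U.getD j 0) A.reverse.tail 2 (U.getD j 0) (A.reverse.getD 0 0) : ℤ) : ℝ) := by
        exact_mod_cast h1
      rw [hz_Hv hA] at h2
      have h3 : (0 : ℝ) < 1000 ^ g := by positivity
      have h4 : (-1) ^ j * (1000 ^ g * Hv g (fun i => A.getD i 0) (((U.getD j 0 : ℤ) : ℝ) / 1000)) =
          1000 ^ g * ((-1) ^ j * Hv g (fun i => A.getD i 0) (((U.getD j 0 : ℤ) : ℝ) / 1000)) := by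
        ring
      rw [h4] at h2
      exact (mul_pos_iff_of_pos_left h3).1 h2

end Pool.Agent.K3h7.WF
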