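import Pool.Agent.K3h7.WF.Exc2

/-!
# The exceptional pairs `(3,2), (4,2), (4,3), (4,4), (5,2), (6,2), (6,4)` and the theorem for `p = 2`
-/

set_option autoImplicit false

namespace Pool.Agent.K3h7.WF

open Polynomial Pool.Agent.R80.WF

/-- the certificate for an exceptional pair -/
def ChkE (g f : ℕ) (A U : List ℤ) (p q : ℕ) : Prop :=
  A.length = g + 1 ∧ A.getD 0 0 = 1 ∧ A.getD f 0 % 2 = 1 ∧
  (∀ i < g + 1, f < i → A.getD i 0 % 2 = 0) ∧ A.getD 1 0 ≠ 0 ∧
  ((∑ i ∈ Finset.range g, A.getD i 0 * (1 + 2 ^ (g - i)) + A.getD g 0) % p = 0 ∧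
    (∑ i ∈ Finset.range g, A.getD i 0 * (1 + 2 ^ (g - i)) + A.getD g 0) % (p ^ 2 : ℕ) ≠ 0) ∧
  ((∑ i ∈ Finset.range g, A.getD i 0 * (-1) ^ i * (1 + 2 ^ (g - i)) + A.getD g 0 * (-1) ^ g) % q
      = 0 ∧
    (∑ i ∈ Finset.range g, A.getD i 0 * (-1) ^ i * (1 + 2 ^ (g - i)) + A.getD g 0 * (-1) ^ g) %
      (q ^ 2 : ℕ) ≠ 0) ∧
  (p ≠ q ∧ ¬ p ∣ q - 1 ∧ ¬ q ∣ p - 1 ∧ Nat.gcd (p - 1) (q - 1) = 2) ∧
  (∀ j < g, U.getD (j + 1) 0 < U.getD j 0) ∧ (U.getD 0 0) ^ 2 ≤ 8000000 ∧
  (U.getD g 0) ^ 2 ≤ 8000000 ∧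
  (∀ j < g + 1, 0 < (-1) ^ j *
    hz (U.getD j 0) A.reverse.tail 2 (U.getD j 0) (A.reverse.getD 0 0))

instance (g f : ℕ) (A U : List ℤ) (p q : ℕ) : Decidable (ChkE g f A U p q) := by
  unfold ChkE
  infer_instance

theorem eval_neg_one_PP {g : ℕ} {a : ℕ → ℤ} : (PP 2 g a).eval (-1) =
    ∑ i ∈ Finset.range g, a i * (-1) ^ i * (1 + 2 ^ (g - i)) + a g * (-1) ^ g := by
  unfold PP
  simp only [eval_add, eval_finsetSum, eval_mul, eval_C, eval_pow, eval_X]
  congr 1
  refine Finset.sum_congr rfl fun i hi => ?_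
  have hi' := (Finset.mem_range.1 hi).le
  have h1 : (-1 : ℤ) ^ (2 * g - i) = (-1) ^ i := by
    have : (-1 : ℤ) ^ (2 * g - i) * ((-1) ^ i * (-1) ^ i) = (-1) ^ i := by
      rw [← mul_assoc, ← pow_add, Nat.sub_add_cancel (by omega), pow_mul]
      norm_num
    rw [← mul_pow] at this
    norm_num at this
    exact this
  rw [h1]
  push_cast
  ring

theorem exc_good {g f : ℕ} {A U : List ℤ} {p q : ℕ} (hg : 2 ≤ g) (hfg : f ≤ g) (hp : p.Prime)
    (hq : q.Prime) (hc : ChkE g f A U p q) (hH : Irreducible (HP g (fun i => A.getD i 0))) :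
    Good 2 g f := by
  obtain ⟨hA, h0, hodd, heven, h1, ⟨hp1, hp2⟩, ⟨hq1, hq2⟩, ⟨hpq, hd1, hd2, hgcd⟩, hU, hU0, hUg,
    hs⟩ := hc
  set a : ℕ → ℤ := fun i => A.getD i 0 with ha
  have hg1 : 1 ≤ g := by omega
  have hm : (PP 2 g a).Monic := monic_PP hg1 h0
  have hdeg : (PP 2 g a).natDegree = 2 * g := natDegree_PP hg1 h0
  have hroot : ∀ x : ℂ, aeval x (PP 2 g a) = 0 → Complex.normSq x = 2 ∧ x ^ 2 ≠ 2 := by
    intro x hx
    refine root_of_sign hg1 h0 (y := fun j => ((U.getD j 0 : ℤ) : ℝ) / 1000) ?_ ?_ ?_ ?_ x hx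
    · intro j hj
      have : ((U.getD (j + 1) 0 : ℤ) : ℝ) < ((U.getD j 0 : ℤ) : ℝ) := by exact_mod_cast hU j hj
      linarith
    · have : ((U.getD 0 0 : ℤ) : ℝ) ^ 2 ≤ 8000000 := by exact_mod_cast hU0
      rw [div_pow]
      linarith
    · have : ((U.getD g 0 : ℤ) : ℝ) ^ 2 ≤ 8000000 := by exact_mod_cast hUg
      rw [div_pow]
      linarith
    · intro j hj
      have h1 := hs j (by omega)
      have h2 : (0 : ℝ) < (-1) ^ j *
          ((hz (U.getD j 0) A.reverse.tail 2 (U.getD j 0) (A.reverse.getD 0 0) : ℤ) : ℝ) := by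
        exact_mod_cast h1
      rw [hz_Hv hA] at h2
      have h3 : (0 : ℝ) < 1000 ^ g := by positivity
      have h4 : (-1) ^ j * (1000 ^ g * Hv g (fun i => A.getD i 0) (((U.getD j 0 : ℤ) : ℝ) / 1000)) =
          1000 ^ g * ((-1) ^ j * Hv g (fun i => A.getD i 0) (((U.getD j 0 : ℤ) : ℝ) / 1000)) := by
        ring
      rw [h4] at h2
      exact (mul_pos_iff_of_pos_left h3).1 h2
  have hnorm : ∀ x : ℂ, aeval x (PP 2 g a) = 0 → ‖x‖ = Real.sqrt (2 : ℕ) := by
    intro x hx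
    have h1 := (hroot x hx).1
    rw [Complex.normSq_eq_norm_sq] at h1
    rw [← Real.sqrt_sq (norm_nonneg x), h1]
    norm_num
  have hirr : Irreducible ((PP 2 g a).map (Int.castRingHom ℚ)) := by
    obtain ⟨e1, e2⟩ := HP_deg (a := a) hg1 h0
    refine Pool.Agent.Y676.WP.irreducible_of_real2 Nat.prime_two hg1 hm hdeg e2 e1 hH ?_ ?_ hnorm
    · intro x x' hxx
      rw [aeval_HP]
      exact aeval_PP_Hv a (by exact_mod_cast hxx)
    · intro x hx
      exact_mod_cast (hroot x hx).2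
  refine ⟨PP 2 g a, hm, hdeg, hirr, hnorm, ?_, ?_, ?_⟩
  · intro i hi
    rw [coeff_PP]
    split_ifs with h1 h2 h4
    · exact Dvd.dvd.mul_right (dvd_pow_self _ (by omega)) _
    · exact Int.dvd_of_emod_eq_zero (heven g (by omega) (by omega))
    · exact Int.dvd_of_emod_eq_zero (heven (2 * g - i) (by omega) (by omega))
    · exact dvd_zero _
  · rw [coeff_PP]
    by_cases hfg' : f = g
    · subst hfg'
      rw [if_neg (by omega), if_pos (by omega)]
      push_cast
      have : a f % 2 = 1 := hodd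
      omega
    · rw [if_neg (by omega), if_neg (by omega), if_pos (by omega)]
      have : 2 * g - (2 * g - f) = f := by omega
      rw [this]
      push_cast
      have : a f % 2 = 1 := hodd
      omega
  · intro x hx n hn
    have hx0 : x ≠ 0 := by
      rintro rfl
      have := (hroot 0 hx).1
      rw [map_zero] at this
      norm_num at this
    refine adjoin_pow_of_mu hm hirr ?_ hx hx0 (mu_of_pair hm hirr hp hq ?_ ?_ ?_ ?_ hpq hd1 hd2
      hgcd hx) hn
    · intro d hdd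
      have h2 := hdd 1
      rw [coeff_PP, if_pos (by omega)] at h2
      exact Nat.dvd_one.1 (h2 (mul_ne_zero (pow_ne_zero _ (by norm_num)) h1))
    · rw [eval_one_PP]
      exact Int.dvd_of_emod_eq_zero hp1
    · rw [eval_one_PP]
      intro h
      apply hp2
      push_cast
      exact Int.emod_eq_zero_of_dvd h
    · rw [eval_neg_one_PP]
      exact Int.dvd_of_emod_eq_zero hq1
    · rw [eval_neg_one_PP]
      intro h
      apply hq2
      push_cast
      exact Int.emod_eq_zero_of_dvd h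

theorem HP_32 : HP 3 (fun i => ([1, 1, 1, 0] : List ℤ).getD i 0) = polyL [-4, -5, 1, 1] := by
  unfold HP Hv
  simp [Finset.sum_range_succ, Tr, polyL]
  ring

theorem good_32 : Good 2 3 2 := by
  have h0 : ([1, 1, 1, 0] : List ℤ).getD 0 0 = 1 := rfl
  have h1 := HP_deg (g := 3) (a := fun i => ([1, 1, 1, 0] : List ℤ).getD i 0) (by norm_num) h0
  refine exc_good (A := [1, 1, 1, 0]) (U := [2828, 696, -1582, -2828]) (p := 17) (q := 7)
    (by norm_num) (by norm_num) (by norm_num) (by norm_num) (by decide +kernel) ?_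
  rw [HP_32] at h1 ⊢
  exact irreducible_polyL (by norm_num) (by norm_num) h1.2 h1.1 (by decide +kernel)

theorem HP_42 : HP 4 (fun i => ([1, 1, 3, 2, 6] : List ℤ).getD i 0) = polyL [2, -4, -5, 1, 1] := by
  unfold HP Hv
  simp [Finset.sum_range_succ, Tr, polyL]
  ring

theorem good_42 : Good 2 4 2 := by
  have h0 : ([1, 1, 3, 2, 6] : List ℤ).getD 0 0 = 1 := rfl
  have h1 := HP_deg (g := 4) (a := fun i => ([1, 1, 3, 2, 6] : List ℤ).getD i 0) (by norm_num) h0
  refine exc_good (A := [1, 1, 3, 2, 6]) (U := [2828, 1223, -417, -1723, -2828]) (p := 53) (q := 23)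
    (by norm_num) (by norm_num) (by norm_num) (by norm_num) (by decide +kernel) ?_
  rw [HP_42] at h1 ⊢
  exact irreducible_polyL (by norm_num) (by norm_num) h1.2 h1.1 (by decide +kernel)

theorem HP_43 : HP 4 (fun i => ([1, 1, 3, 3, 8] : List ℤ).getD i 0) = polyL [4, -3, -5, 1, 1] := by
  unfold HP Hv
  simp [Finset.sum_range_succ, Tr, polyL]
  ring

theorem good_43 : Good 2 4 3 := by
  have h0 : ([1, 1, 3, 3, 8] : List ℤ).getD 0 0 = 1 := rfl
  have h1 := HP_deg (g := 4) (a := fun i => ([1, 1, 3, 3, 8] : List ℤ).getD i 0) (by norm_num) h0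
  refine exc_good (A := [1, 1, 3, 3, 8]) (U := [2828, 1298, -306, -1798, -2828]) (p := 29) (q := 11)
    (by norm_num) (by norm_num) (by norm_num) (by norm_num) (by decide +kernel) ?_
  rw [HP_43] at h1 ⊢
  exact irreducible_polyL (by norm_num) (by norm_num) h1.2 h1.1 (by decide +kernel)

theorem HP_44 : HP 4 (fun i => ([1, -3, 8, -14, 23] : List ℤ).getD i 0) = polyL [-1, 4, 0, -3, 1] := by
  unfold HP Hv
  simp [Finset.sum_range_succ, Tr, polyL]
  ring

theorem good_44 : Good 2 4 4 := by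
  have h0 : ([1, -3, 8, -14, 23] : List ℤ).getD 0 0 = 1 := rfl
  have h1 := HP_deg (g := 4) (a := fun i => ([1, -3, 8, -14, 23] : List ℤ).getD i 0) (by norm_num) h0
  refine exc_good (A := [1, -3, 8, -14, 23]) (U := [2828, 1916, 870, -416, -2828]) (p := 11) (q := 149)
    (by norm_num) (by norm_num) (by norm_num) (by norm_num) (by decide +kernel) ?_
  rw [HP_44] at h1 ⊢
  exact irreducible_polyL (by norm_num) (by norm_num) h1.2 h1.1 (by decide +kernel)

theorem HP_52 : HP 5 (fun i => ([1, -1, 5, -4, 14, -10] : List ℤ).getD i 0) = polyL [-2, 4, 4, -5, -1, 1] := by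
  unfold HP Hv
  simp [Finset.sum_range_succ, Tr, polyL]
  ring

theorem good_52 : Good 2 5 2 := by
  have h0 : ([1, -1, 5, -4, 14, -10] : List ℤ).getD 0 0 = 1 := rfl
  have h1 := HP_deg (g := 5) (a := fun i => ([1, -1, 5, -4, 14, -10] : List ℤ).getD i 0) (by norm_num) h0
  refine exc_good (A := [1, -1, 5, -4, 14, -10]) (U := [2828, 1710, 845, -238, -1420, -2828]) (p := 73) (q := 167)
    (by norm_num) (by norm_num) (by norm_num) (by norm_num) (by decide +kernel) ?_
  rw [HP_52] at h1 ⊢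
  exact irreducible_polyL (by norm_num) (by norm_num) h1.2 h1.1 (by decide +kernel)

theorem HP_62 : HP 6 (fun i => ([1, 2, 5, 6, 10, 8, 14] : List ℤ).getD i 0) = polyL [-2, 12, 6, -14, -7, 2, 1] := by
  unfold HP Hv
  simp [Finset.sum_range_succ, Tr, polyL]
  ring

theorem good_62 : Good 2 6 2 := by
  have h0 : ([1, 2, 5, 6, 10, 8, 14] : List ℤ).getD 0 0 = 1 := rfl
  have h1 := HP_deg (g := 6) (a := fun i => ([1, 2, 5, 6, 10, 8, 14] : List ℤ).getD i 0) (by norm_num) h0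
  refine exc_good (A := [1, 2, 5, 6, 10, 8, 14]) (U := [2828, 1691, 542, -525, -1516, -2166, -2828]) (p := 179) (q := 5)
    (by norm_num) (by norm_num) (by norm_num) (by norm_num) (by decide +kernel) ?_
  rw [HP_62] at h1 ⊢
  exact irreducible_polyL (by norm_num) (by norm_num) h1.2 h1.1 (by decide +kernel)

theorem HP_64 : HP 6 (fun i => ([1, -2, 6, -7, 13, -10, 22] : List ℤ).getD i 0) = polyL [2, -8, 1, 13, -6, -2, 1] := by
  unfold HP Hv
  simp [Finset.sum_range_succ, Tr, polyL]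
  ring

theorem good_64 : Good 2 6 4 := by
  have h0 : ([1, -2, 6, -7, 13, -10, 22] : List ℤ).getD 0 0 = 1 := rfl
  have h1 := HP_deg (g := 6) (a := fun i => ([1, -2, 6, -7, 13, -10, 22] : List ℤ).getD i 0) (by norm_num) h0
  refine exc_good (A := [1, -2, 6, -7, 13, -10, 22]) (U := [2828, 2078, 1289, 543, -270, -1621, -2828]) (p := 5) (q := 7)
    (by norm_num) (by norm_num) (by norm_num) (by norm_num) (by decide +kernel) ?_
  rw [HP_64] at h1 ⊢
  exact irreducible_polyL (by norm_num) (by norm_num) h1.2 h1.1 (by decide +kernel)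

/-- The theorem for `p = 2`. -/
theorem good_two {g f : ℕ} (hg : 3 ≤ g) (hf : 2 ≤ f) (hfg : f ≤ g) : Good 2 g f := by
  by_cases h19 : 19 ≤ g
  · exact good_big h19 hf hfg
  by_cases he : (g, f) ∈ exc
  · simp only [exc, List.mem_cons, Prod.mk.injEq, List.not_mem_nil, or_false] at he
    rcases he with ⟨rfl, rfl⟩ | ⟨rfl, rfl⟩ | ⟨rfl, rfl⟩ | ⟨rfl, rfl⟩ | ⟨rfl, rfl⟩ | ⟨rfl, rfl⟩ |
      ⟨rfl, rfl⟩
    · exact good_32
    · exact good_42
    · exact good_43
    · exact good_44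
    · exact good_52
    · exact good_62
    · exact good_64
  · exact good_small hg (by omega) hf hfg he

end Pool.Agent.K3h7.WF
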