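import Pool.Agent.K3h7.WF.Sign
import Pool.Agent.Y676.WP.OneTwo
import Pool.Agent.R80.WF.Root
import Pool.Agent.TH343.PR.Final

/-!
# Ordinary surfaces: `(g, f) = (2, 2)`, every prime `p`
-/

set_option autoImplicit false

namespace Pool.Agent.K3h7.WF

open Polynomial Pool.Agent.R80.WF

theorem not_integral_inv {p : ℕ} (hp : p.Prime) {w : ℂ} (hw : IsIntegral ℤ w)
    (h : (p : ℂ) * w = 1) : False := by
  have hp0 : (p : ℂ) ≠ 0 := by exact_mod_cast hp.ne_zero
  have h1 : w = algebraMap ℚ ℂ ((p : ℚ)⁻¹) := by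
    rw [map_inv₀, map_natCast]
    exact eq_inv_of_mul_eq_one_right h
  rw [h1, isIntegral_algebraMap_iff (FaithfulSMul.algebraMap_injective ℚ ℂ)] at hw
  obtain ⟨m, hm⟩ := int_of_isIntegral hw
  have hp0' : (p : ℚ) ≠ 0 := by exact_mod_cast hp.ne_zero
  have h2 : (m : ℚ) * p = 1 := by
    rw [hm, inv_mul_cancel₀ hp0']
  have h3 : m * (p : ℤ) = 1 := by exact_mod_cast h2
  have h4 : (p : ℤ) ∣ 1 := ⟨m, by rw [← h3]; ring⟩
  have h5 : p ∣ 1 := by exact_mod_cast h4
  exact hp.one_lt.ne' (Nat.dvd_one.1 h5)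

theorem no_e {p : ℕ} (hp : p.Prime) {e : ℂ} (he : IsIntegral ℤ e)
    (h : (p : ℂ) * e ^ 2 - e - p = 0) : False := by
  have hp2 : (2 : ℤ) ≤ p := by exact_mod_cast hp.two_le
  set f : ℤ[X] := C (p : ℤ) * X ^ 2 + (C (-1) * X + C (-(p : ℤ))) with hf
  have hfe : aeval e f = 0 := by
    rw [hf]
    simp only [map_add, map_mul, aeval_C, aeval_X, map_pow]
    simp only [algebraMap_int_eq, eq_intCast]
    push_cast
    linear_combination h
  have hc2 : f.coeff 2 = p := by
    rw [hf]
    simp [coeff_X]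
  have hc1 : f.coeff 1 = -1 := by
    rw [hf]
    simp
  have hc0 : f.coeff 0 = -p := by
    rw [hf]
    simp
  have hfd : f.natDegree = 2 := by
    apply natDegree_eq_of_le_of_coeff_ne_zero
    · rw [hf]
      compute_degree
    · rw [hc2]
      omega
  have hf0 : f ≠ 0 := by
    intro h0
    rw [h0, natDegree_zero] at hfd
    omega
  obtain ⟨q, hq⟩ := minpoly.isIntegrallyClosed_dvd he hfe
  have hm := minpoly.monic he
  set m := minpoly ℤ e with hmm
  have hmpos : 0 < m.natDegree := minpoly.natDegree_pos he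
  have hq0 : q ≠ 0 := by
    rintro rfl
    rw [mul_zero] at hq
    exact hf0 hq
  have hdeg : m.natDegree + q.natDegree = 2 := by
    rw [← natDegree_mul hm.ne_zero hq0, ← hq, hfd]
  have hcases : m.natDegree = 1 ∨ m.natDegree = 2 := by omega
  rcases hcases with h1 | h2
  · have hm1 : m = X + C (m.coeff 0) := by
      conv_lhs => rw [hm.as_sum, h1]
      simp
    have hme : aeval e m = 0 := minpoly.aeval ℤ e
    rw [hm1, map_add, aeval_X, aeval_C, algebraMap_int_eq, eq_intCast] at hme
    set k : ℤ := -m.coeff 0 with hk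
    have hek : e = (k : ℂ) := by
      rw [hk]
      push_cast
      linear_combination hme
    rw [hek] at h
    have h3 : (p : ℤ) * k ^ 2 - k - p = 0 := by exact_mod_cast h
    obtain ⟨t, ht⟩ : (p : ℤ) ∣ k := ⟨k ^ 2 - 1, by linarith⟩
    rw [ht] at h3
    have h4 : (p : ℤ) * (t * ((p : ℤ) ^ 2 * t - 1) - 1) = 0 := by linear_combination h3
    have h5 : t * ((p : ℤ) ^ 2 * t - 1) = 1 := by
      have := (mul_eq_zero.1 h4).resolve_left (by omega)
      linarith
    rcases Int.isUnit_iff.1 (IsUnit.of_mul_eq_one _ h5) with h6 | h6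
    · rw [h6] at h5
      nlinarith
    · rw [h6] at h5
      nlinarith
  · have hq1 : q.natDegree = 0 := by omega
    obtain ⟨t, rfl⟩ : ∃ t, q = C t := ⟨q.coeff 0, eq_C_of_natDegree_eq_zero hq1⟩
    have e1 : f.coeff 2 = t := by
      rw [hq, coeff_mul_C, ← h2, hm.coeff_natDegree, one_mul]
    have e2 : f.coeff 1 = m.coeff 1 * t := by
      rw [hq, coeff_mul_C]
    rw [hc2] at e1
    rw [hc1, ← e1] at e2
    have h4 : (p : ℤ) ∣ 1 := ⟨-m.coeff 1, by linarith⟩
    have h5 : p ∣ 1 := by exact_mod_cast h4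
    exact hp.one_lt.ne' (Nat.dvd_one.1 h5)

/-- the polynomial -/
noncomputable def P22 (p : ℕ) : ℤ[X] := PP p 2 (fun _ => 1)

theorem aeval_P22 (p : ℕ) (x : ℂ) : aeval x (P22 p) = x ^ 4 + x ^ 3 + x ^ 2 + p * x + p ^ 2 := by
  unfold P22 PP
  simp [Finset.sum_range_succ]
  ring

theorem nondeg22 {p : ℕ} (hp : p.Prime) {x z : ℂ} (hx : aeval x (P22 p) = 0)
    (hz : aeval z (P22 p) = 0) {n : ℕ} (hn : 1 ≤ n) (hxz : x ^ n = z ^ n) : x = z := by
  by_contra hne
  have hp0 : (p : ℂ) ≠ 0 := by exact_mod_cast hp.ne_zero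
  rw [aeval_P22] at hx hz
  have hx0 : x ≠ 0 := by
    rintro rfl
    apply hp0
    have : (p : ℂ) ^ 2 = 0 := by linear_combination hx
    exact pow_eq_zero_iff (by norm_num) |>.1 this
  have hz0 : z ≠ 0 := by
    rintro rfl
    apply hp0
    have : (p : ℂ) ^ 2 = 0 := by linear_combination hz
    exact pow_eq_zero_iff (by norm_num) |>.1 this
  have i1 : IsIntegral ℤ (z / x) := by
    apply IsIntegral.of_pow (by omega : 0 < n)
    rw [div_pow, hxz, div_self (pow_ne_zero _ hz0)]
    exact isIntegral_one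
  have i2 : IsIntegral ℤ (x / z) := by
    apply IsIntegral.of_pow (by omega : 0 < n)
    rw [div_pow, hxz, div_self (pow_ne_zero _ hz0)]
    exact isIntegral_one
  set c : ℂ := z / x + x / z with hc
  have hci : IsIntegral ℤ c := i1.add i2
  have hpi : IsIntegral ℤ (p : ℂ) := by
    have h := isIntegral_algebraMap (R := ℤ) (A := ℂ) (x := (p : ℤ))
    simpa using h
  set y := x + p / x with hy
  set y' := z + p / z with hy'
  have ey : y ^ 2 + y + 1 - 2 * p = 0 := by
    have : x ^ 2 * (y ^ 2 + y + 1 - 2 * p) = 0 := by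
      rw [← hx, hy]
      field_simp
      ring
    exact (mul_eq_zero.1 this).resolve_left (pow_ne_zero _ hx0)
  have ey' : y' ^ 2 + y' + 1 - 2 * p = 0 := by
    have : z ^ 2 * (y' ^ 2 + y' + 1 - 2 * p) = 0 := by
      rw [← hz, hy']
      field_simp
      ring
    exact (mul_eq_zero.1 this).resolve_left (pow_ne_zero _ hz0)
  have hprod : (y - y') * (y + y' + 1) = 0 := by linear_combination ey - ey'
  rcases mul_eq_zero.1 hprod with h1 | h1
  · -- `x z = p`
    have h2 : (x - z) * (x * z - p) = 0 := by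
      have : x * z * (y - y') = (x - z) * (x * z - p) := by
        rw [hy, hy']
        field_simp
        ring
      rw [← this, h1, mul_zero]
    have h3 : x * z = p := by
      have := (mul_eq_zero.1 h2).resolve_left (sub_ne_zero.2 hne)
      linear_combination this
    have h4 : p * c = x ^ 2 + z ^ 2 := by
      rw [hc, ← h3]
      field_simp
      ring
    have h5 : y = x + z := by
      rw [hy, ← h3]
      field_simp
    have h6 : y ^ 2 = p * c + 2 * p := by
      rw [h5, h4, ← h3]
      ring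
    have h7 : y = -(p * c + 1) := by linear_combination ey - h6
    apply not_integral_inv hp (w := 2 - c - p * c ^ 2)
    · have i3 : IsIntegral ℤ (2 : ℂ) := by
        have h := isIntegral_algebraMap (R := ℤ) (A := ℂ) (x := (2 : ℤ))
        simpa using h
      exact (i3.sub hci).sub (hpi.mul (hci.pow 2))
    · rw [h7] at h6
      linear_combination -h6
  · have h2 : y' = -1 - y := by linear_combination h1
    have h3 : y * y' = 1 - 2 * p := by
      rw [h2]
      linear_combination -ey
    have hs0 : x * z ≠ 0 := mul_ne_zero hx0 hz0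
    have h4 : y * y' = x * z + p * c + p ^ 2 / (x * z) := by
      rw [hy, hy', hc]
      field_simp
      ring
    have h5 : (y + y') ^ 2 = (c + 2) * (x * z + 2 * p + p ^ 2 / (x * z)) := by
      rw [hy, hy', hc]
      field_simp
      ring
    have h6 : (c + 2) * (1 - p * c) = 1 := by
      have e1 : x * z + 2 * p + p ^ 2 / (x * z) = 1 - p * c := by
        linear_combination h3 - h4
      have e2 : (y + y') ^ 2 = 1 := by
        rw [h2]
        ring
      rw [← e1, ← h5, e2]
    apply no_e hp (e := c + 1)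
    · exact hci.add isIntegral_one
    · linear_combination -h6

/-- the trace polynomial -/
noncomputable def h22 (p : ℕ) : ℤ[X] := X ^ 2 + (X + C (1 - 2 * (p : ℤ)))

theorem h22_deg (p : ℕ) : (X + C (1 - 2 * (p : ℤ)) : ℤ[X]).degree < 2 := by
  refine lt_of_le_of_lt (b := (1 : WithBot ℕ)) ?_ (by norm_num)
  compute_degree

theorem h22_monic (p : ℕ) : (h22 p).Monic := monic_X_pow_add (h22_deg p)

theorem h22_natDegree (p : ℕ) : (h22 p).natDegree = 2 := by
  unfold h22
  compute_degree!

theorem z2_two : (2 : ZMod 2) = 0 := by decide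

theorem z2_quad : ∀ r : ZMod 2, r ^ 2 + (r + 1) ≠ 0 := by decide

theorem h22_irr (p : ℕ) : Irreducible (h22 p) := by
  have : Fact (Nat.Prime 2) := ⟨Nat.prime_two⟩
  apply (h22_monic p).irreducible_of_irreducible_map (Int.castRingHom (ZMod 2))
  have hm := (h22_monic p).map (Int.castRingHom (ZMod 2))
  have hd : ((h22 p).map (Int.castRingHom (ZMod 2))).natDegree = 2 := by
    rw [(h22_monic p).natDegree_map, h22_natDegree]
  rw [hm.irreducible_iff_roots_eq_zero_of_degree_le_three (by omega) (by omega)]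
  rw [Multiset.eq_zero_iff_forall_notMem]
  intro r hr
  have h1 := isRoot_of_mem_roots hr
  rw [IsRoot.def] at h1
  unfold h22 at h1
  rw [Polynomial.map_add, Polynomial.map_pow, map_X, Polynomial.map_add, map_X, map_C, eval_add,
    eval_pow, eval_X, eval_add, eval_X, eval_C, eq_intCast] at h1
  have h2 : ((1 - 2 * (p : ℤ) : ℤ) : ZMod 2) = 1 := by
    push_cast
    rw [z2_two]
    ring
  rw [h2] at h1
  exact z2_quad r h1

theorem good22 {p : ℕ} (hp : p.Prime) : Good p 2 2 := by
  have hp2 : (2 : ℝ) ≤ p := by exact_mod_cast hp.two_le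
  have hp0 : (0 : ℝ) < p := by linarith
  have hm : (P22 p).Monic := monic_PP (by norm_num) rfl
  have hdeg : (P22 p).natDegree = 2 * 2 := natDegree_PP (by norm_num) rfl
  have hnorm : ∀ x : ℂ, aeval x (P22 p) = 0 → ‖x‖ = Real.sqrt p := by
    apply root p 2 (fun _ => 1) hp.one_lt.le (by norm_num) rfl
    intro θ
    set t := (Real.sqrt p)⁻¹ with ht
    have ht2 : t ^ 2 * p = 1 := by
      rw [ht, inv_pow, Real.sq_sqrt hp0.le, inv_mul_cancel₀ hp0.ne']
    have ht3 : t ^ 2 ≤ 1 / 2 := by nlinarith [sq_nonneg t]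
    have hcos : Real.cos ((2 : ℕ) * θ) = 2 * Real.cos θ ^ 2 - 1 := by
      push_cast
      exact Real.cos_two_mul θ
    rw [hcos]
    simp only [Finset.sum_range_succ, Finset.sum_range_zero]
    push_cast
    rw [zero_mul, Real.cos_zero]
    simp only [one_mul, pow_zero, pow_one, zero_add, mul_one]
    nlinarith [sq_nonneg (t * Real.cos θ + 1 / 2)]
  have hxP : ∀ x x' : ℂ, x * x' = p → aeval x (P22 p) = x ^ 2 * aeval (x + x') (h22 p) := by
    intro x x' h
    rw [aeval_P22]
    unfold h22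
    simp only [map_add, map_pow, aeval_X, aeval_C]
    simp only [algebraMap_int_eq, eq_intCast]
    push_cast
    rw [← h]
    ring
  have hreal : ∀ x : ℂ, aeval x (P22 p) = 0 → x ^ 2 ≠ p := by
    intro x hx h
    have h1 := hxP x x (by rw [← sq, h])
    rw [hx] at h1
    have hpc : (p : ℂ) ≠ 0 := by exact_mod_cast hp.ne_zero
    have hx2 : x ^ 2 ≠ 0 := by
      rw [h]
      exact hpc
    have h2 := (mul_eq_zero.1 h1.symm).resolve_left hx2
    unfold h22 at h2
    simp only [map_add, map_pow, aeval_X, aeval_C] at h2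
    simp only [algebraMap_int_eq, eq_intCast] at h2
    push_cast at h2
    have h3 : 2 * x = -(2 * (p : ℂ) + 1) := by linear_combination h2 - 4 * h
    have h4 : (2 * (p : ℂ) + 1) ^ 2 = 4 * p := by
      have e1 : (2 * x) ^ 2 = (2 * (p : ℂ) + 1) ^ 2 := by rw [h3]; ring
      have e2 : (2 * x) ^ 2 = 4 * x ^ 2 := by ring
      rw [e2, h] at e1
      exact e1.symm
    have h5 : (2 * (p : ℝ) + 1) ^ 2 = 4 * p := by exact_mod_cast h4
    nlinarith
  have hirr : Irreducible ((P22 p).map (Int.castRingHom ℚ)) :=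
    Pool.Agent.Y676.WP.irreducible_of_real2 hp (by norm_num) hm hdeg (h22_monic p)
      (h22_natDegree p) (h22_irr p) hxP hreal hnorm
  refine ⟨P22 p, hm, hdeg, hirr, hnorm, ?_, ?_, ?_⟩
  · intro i hi
    unfold P22
    rw [coeff_PP, if_pos (by omega)]
    exact Dvd.dvd.mul_right (dvd_pow_self _ (by omega)) _
  · unfold P22
    rw [coeff_PP, if_neg (by omega), if_pos (by omega)]
    intro h
    have h5 : p ∣ 1 := by exact_mod_cast h
    exact hp.one_lt.ne' (Nat.dvd_one.1 h5)
  · intro x hx n hn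
    exact Pool.Agent.TH343.PR.adjoin_pow_eq hm
      (fun x y hx hy n hn hxy => nondeg22 hp hx hy hn hxy) hx hn

end Pool.Agent.K3h7.WF
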